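import Mathlib
import Pool.Agent.K4H74.ST.Exc

/-!
# Multiplicities of linear characters, and the sum of the multiplicities over a set of square roots
of a sign character
-/

set_option autoImplicit false
set_option linter.unusedSectionVars false

namespace Pool.Agent.W2helper1.SI

open Pool.Agent.R389 Pool.Agent.K4H74.ST

section pair

variable {H : Type} [Group H]

/-- the scalar product of a function and a linear character -/
noncomputable def pair (f : H → ℂ) (l : H →* ℂˣ) : ℂ :=
  (Nat.card H : ℂ)⁻¹ * ∑ᶠ h : H, f h * (((l h)⁻¹ : ℂˣ) : ℂ)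

variable [Finite H]

lemma card_ne (H : Type) [Group H] [Finite H] : (Nat.card H : ℂ) ≠ 0 := by
  exact_mod_cast Nat.card_pos.ne'

lemma pair_int {f : H → ℂ} (hf : IsChar f) (l : H →* ℂˣ) : ∃ m : ℤ, pair f l = m := by
  classical
  have : Fintype H := Fintype.ofFinite H
  obtain ⟨W, _, _, _, ρ, rfl⟩ := hf
  have : Invertible (Nat.card H : ℂ) := invertibleOfNonzero (card_ne H)
  have h := Representation.card_inv_mul_sum_char_mul_char_eq_finrank
    (Pool.Agent.H541R3.ART.linRep l) ρ
  refine ⟨(Module.finrank ℂ (Representation.IntertwiningMap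
    (Pool.Agent.H541R3.ART.linRep l) ρ) : ℕ), ?_⟩
  rw [Int.cast_natCast, ← h, pair, finsum_eq_sum_of_fintype]
  congr 1
  refine Finset.sum_congr rfl fun x _ => ?_
  rw [Pool.Agent.H541R3.ART.linRep_char, map_inv]

lemma pair_add (f f' : H → ℂ) (l : H →* ℂˣ) : pair (f + f') l = pair f l + pair f' l := by
  classical
  have : Fintype H := Fintype.ofFinite H
  rw [pair, pair, pair, finsum_eq_sum_of_fintype, finsum_eq_sum_of_fintype,
    finsum_eq_sum_of_fintype, ← mul_add, ← Finset.sum_add_distrib]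
  congr 1
  refine Finset.sum_congr rfl fun x _ => ?_
  rw [Pi.add_apply, add_mul]

lemma pair_smul (c : ℂ) (f : H → ℂ) (l : H →* ℂˣ) : pair (fun h => c * f h) l = c * pair f l := by
  classical
  have : Fintype H := Fintype.ofFinite H
  rw [pair, pair, finsum_eq_sum_of_fintype, finsum_eq_sum_of_fintype, mul_left_comm c,
    Finset.mul_sum (s := Finset.univ) (a := c)]
  refine congrArg _ (Finset.sum_congr rfl fun x _ => ?_)
  rw [mul_assoc]

lemma pair_sum {ι : Type*} (s : Finset ι) (f : ι → H → ℂ) (l : H →* ℂˣ) :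
    pair (fun h => ∑ i ∈ s, f i h) l = ∑ i ∈ s, pair (f i) l := by
  classical
  have : Fintype H := Fintype.ofFinite H
  simp only [pair, finsum_eq_sum_of_fintype]
  rw [← Finset.mul_sum (s := s)]
  congr 1
  rw [Finset.sum_comm (s := s)]
  refine Finset.sum_congr rfl fun x _ => ?_
  rw [Finset.sum_mul]

/-- shifting by an element on which `f` does not depend -/
lemma pair_eq_zero {f : H → ℂ} {l : H →* ℂˣ} {k : H} (hf : ∀ h, f (h * k) = f h)
    (hk : l k ≠ 1) : pair f l = 0 := by
  classical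
  have : Fintype H := Fintype.ofFinite H
  have h1 : ∑ h : H, f h * (((l h)⁻¹ : ℂˣ) : ℂ)
      = (((l k)⁻¹ : ℂˣ) : ℂ) * ∑ h : H, f h * (((l h)⁻¹ : ℂˣ) : ℂ) := by
    rw [Finset.mul_sum]
    refine Fintype.sum_equiv (Equiv.mulRight k⁻¹) _ _ fun h => ?_
    have h2 : f h = f (h * k⁻¹) := by rw [← hf (h * k⁻¹), inv_mul_cancel_right]
    rw [Equiv.coe_mulRight, ← h2, map_mul, mul_inv_rev, map_inv, inv_inv, Units.val_mul,
      mul_left_comm]
    congr 1
    rw [← mul_assoc, ← Units.val_mul, inv_mul_cancel, Units.val_one, one_mul]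
  have h3 : (1 - (((l k)⁻¹ : ℂˣ) : ℂ)) * ∑ h : H, f h * (((l h)⁻¹ : ℂˣ) : ℂ) = 0 := by
    rw [sub_mul, one_mul, ← h1, sub_self]
  have h4 : (1 - (((l k)⁻¹ : ℂˣ) : ℂ)) ≠ 0 := by
    rw [sub_ne_zero]
    intro h5
    apply hk
    rw [← inv_eq_one]
    exact Units.ext h5.symm
  rw [pair, finsum_eq_sum_of_fintype, (mul_eq_zero.mp h3).resolve_left h4, mul_zero]

/-- the pairing is invariant under conjugation -/
lemma pair_conj (f : H → ℂ) (l : H →* ℂˣ) (a : H) :
    pair (fun h => f (a⁻¹ * h * a)) l = pair f l := by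
  classical
  have : Fintype H := Fintype.ofFinite H
  rw [pair, pair, finsum_eq_sum_of_fintype, finsum_eq_sum_of_fintype]
  congr 1
  refine Fintype.sum_equiv (MulAut.conj a⁻¹).toEquiv _ _ fun h => ?_
  change f (a⁻¹ * h * a) * _ = f (a⁻¹ * h * a⁻¹⁻¹) * (((l (a⁻¹ * h * a⁻¹⁻¹))⁻¹ : ℂˣ) : ℂ)
  rw [inv_inv]
  congr 3
  rw [map_mul, map_mul, map_inv, mul_comm, mul_inv_cancel_left]

/-- sums over the fibres of a surjective homomorphism -/
lemma sum_comp {H' : Type} [Group H'] [Finite H'] [Fintype H] [Fintype H'] {π : H' →* H}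
    (hπ : Function.Surjective π) (F : H → ℂ) :
    (Nat.card H' : ℂ)⁻¹ * ∑ h : H', F (π h) = (Nat.card H : ℂ)⁻¹ * ∑ h : H, F h := by
  classical
  have h1 : ∀ h : H, (Finset.univ.filter fun x : H' => π x = h).card = Nat.card π.ker := by
    intro h
    obtain ⟨y, hy⟩ := hπ h
    rw [← Fintype.card_subtype, ← Nat.card_eq_fintype_card]
    refine Nat.card_congr
      { toFun := fun x => ⟨y⁻¹ * x, by
          rw [MonoidHom.mem_ker, map_mul, map_inv, x.2, hy, inv_mul_cancel]⟩
        invFun := fun k => ⟨y * k, by rw [map_mul, MonoidHom.mem_ker.mp k.2, hy, mul_one]⟩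
        left_inv := fun x => by simp
        right_inv := fun k => by simp }
  have h2 : ∑ x : H', F (π x) = (Nat.card π.ker : ℂ) * ∑ h : H, F h := by
    rw [← Finset.sum_fiberwise Finset.univ (fun x : H' => π x), Finset.mul_sum]
    refine Finset.sum_congr rfl fun h _ => ?_
    rw [Finset.sum_congr rfl (g := fun _ => F h) (by
      intro x hx
      rw [(Finset.mem_filter.mp hx).2]), Finset.sum_const, h1, nsmul_eq_mul]
  have h3 : Nat.card H' = Nat.card π.ker * Nat.card H := by
    rw [Subgroup.card_eq_card_quotient_mul_card_subgroup π.ker, mul_comm]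
    congr 1
    exact Nat.card_congr (QuotientGroup.quotientKerEquivOfSurjective π hπ).toEquiv
  have h4 : (Nat.card π.ker : ℂ) ≠ 0 := card_ne _
  rw [h2, h3]
  push_cast
  rw [mul_inv, ← mul_assoc]
  congr 1
  field_simp

lemma pair_comp {H' : Type} [Group H'] [Finite H'] {π : H' →* H}
    (hπ : Function.Surjective π) (f : H → ℂ) (l : H →* ℂˣ) :
    pair (fun h => f (π h)) (l.comp π) = pair f l := by
  classical
  have : Fintype H := Fintype.ofFinite H
  have : Fintype H' := Fintype.ofFinite H'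
  rw [pair, pair, finsum_eq_sum_of_fintype, finsum_eq_sum_of_fintype]
  exact sum_comp hπ (fun h => f h * (((l h)⁻¹ : ℂˣ) : ℂ))

lemma pair_self (l : H →* ℂˣ) : pair (lc l) l = 1 := by
  classical
  have : Fintype H := Fintype.ofFinite H
  rw [pair, finsum_eq_sum_of_fintype, Finset.sum_congr rfl (g := fun _ => (1 : ℂ)) (by
    intro h _
    change ((l h : ℂˣ) : ℂ) * _ = 1
    rw [← Units.val_mul, mul_inv_cancel, Units.val_one]), Finset.sum_const, Finset.card_univ,
    nsmul_eq_mul, mul_one, ← Nat.card_eq_fintype_card]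
  exact inv_mul_cancel₀ (card_ne H)

lemma pair_ne {l l' : H →* ℂˣ} (h : l ≠ l') : pair (lc l) l' = 0 := by
  classical
  have : Fintype H := Fintype.ofFinite H
  obtain ⟨k, hk⟩ : ∃ k, l k ≠ l' k := by
    by_contra h1
    push Not at h1
    exact h (MonoidHom.ext h1)
  have h2 := pair_eq_zero (f := fun _ : H => (1 : ℂ)) (l := l' * l⁻¹) (k := k) (fun _ => rfl) (by
    rw [MonoidHom.mul_apply, MonoidHom.inv_apply]
    intro h3
    exact hk (mul_inv_eq_one.mp h3).symm)
  rw [← h2, pair, pair, finsum_eq_sum_of_fintype, finsum_eq_sum_of_fintype]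
  congr 1
  refine Finset.sum_congr rfl fun x _ => ?_
  change ((l x : ℂˣ) : ℂ) * _ = _
  rw [one_mul, MonoidHom.mul_apply, MonoidHom.inv_apply, mul_inv, inv_inv, Units.val_mul,
    mul_comm]

/-- real valued characters -/
lemma pair_inv {f : H → ℂ} (hf : IsChar f) (hr : ∀ h, (starRingEnd ℂ) (f h) = f h)
    (l : H →* ℂˣ) : pair f l⁻¹ = pair f l := by
  classical
  have : Fintype H := Fintype.ofFinite H
  obtain ⟨m, hm⟩ := pair_int hf l
  have h1 : (starRingEnd ℂ) (pair f l) = pair f l⁻¹ := by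
    rw [pair, pair, finsum_eq_sum_of_fintype, finsum_eq_sum_of_fintype, map_mul, map_inv₀,
      map_natCast, map_sum]
    congr 1
    refine Finset.sum_congr rfl fun x _ => ?_
    rw [map_mul, hr, MonoidHom.inv_apply, inv_inv]
    congr 1
    have h2 : ‖((l x : ℂˣ) : ℂ)‖ = 1 := by
      have h3 : ((l x : ℂˣ) : ℂ) ^ Nat.card H = 1 := by
        rw [← Units.val_pow_eq_pow_val, ← map_pow, pow_card_eq_one', map_one, Units.val_one]
      exact Complex.norm_eq_one_of_pow_eq_one h3 Nat.card_pos.ne'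
    rw [Units.val_inv_eq_inv_val, map_inv₀, ← Complex.inv_eq_conj h2, inv_inv]
  rw [← h1, hm]
  simp

end pair

/-- there are only finitely many linear characters -/
lemma finite_hom (H : Type) [Group H] [Finite H] : Finite (H →* ℂˣ) := by
  classical
  have h1 : ∀ (l : H →* ℂˣ) (h : H), l h ∈ rootsOfUnity (Nat.card H) ℂ := by
    intro l h
    rw [mem_rootsOfUnity, ← map_pow, pow_card_eq_one', map_one]
  have : NeZero (Nat.card H) := ⟨Nat.card_pos.ne'⟩
  refine Finite.of_injective (fun (l : H →* ℂˣ) (h : H) =>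
    (⟨l h, h1 l h⟩ : rootsOfUnity (Nat.card H) ℂ)) fun l l' hll => ?_
  ext h
  have h2 := congrFun hll h
  rw [Subtype.mk.injEq] at h2
  rw [h2]

/-- even integers -/
def Ev (z : ℂ) : Prop := ∃ m : ℤ, z = 2 * m

lemma Ev.add {z w : ℂ} (h : Ev z) (h' : Ev w) : Ev (z + w) := by
  obtain ⟨m, rfl⟩ := h
  obtain ⟨m', rfl⟩ := h'
  exact ⟨m + m', by push_cast; ring⟩

lemma Ev.zero : Ev 0 := ⟨0, by simp⟩

lemma Ev.sum {ι : Type*} (s : Finset ι) (f : ι → ℂ) (h : ∀ i ∈ s, Ev (f i)) :
    Ev (∑ i ∈ s, f i) := by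
  classical
  induction s using Finset.induction_on with
  | empty => simpa using Ev.zero
  | insert a s ha ih =>
    rw [Finset.sum_insert ha]
    exact (h a (Finset.mem_insert_self a s)).add
      (ih fun i hi => h i (Finset.mem_insert_of_mem hi))

/-- a fixed-point-free involution which preserves the terms -/
lemma Ev.invol {ι : Type*} (s : Finset ι) (f : ι → ℂ) (g : ι → ι) (hg : ∀ i ∈ s, g i ∈ s)
    (hgg : ∀ i ∈ s, g (g i) = i) (hne : ∀ i ∈ s, g i ≠ i) (hf : ∀ i ∈ s, f (g i) = f i)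
    (hint : ∀ i ∈ s, ∃ m : ℤ, f i = m) : Ev (∑ i ∈ s, f i) := by
  classical
  choose! m hm using hint
  have h1 : ∑ i ∈ s, ((m i : ℤ) : ZMod 2) = 0 := by
    refine Finset.sum_involution (fun i _ => g i) ?_ ?_ ?_ ?_
    · intro i hi
      have h2 : m (g i) = m i := by
        have h3 := hf i hi
        rw [hm i hi, hm _ (hg i hi)] at h3
        exact_mod_cast h3
      rw [h2]
      exact CharTwo.add_self_eq_zero _
    · intro i hi _
      exact hne i hi
    · intro i hi
      exact hg i hi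
    · intro i hi
      exact hgg i hi
  rw [← Int.cast_sum, ZMod.intCast_zmod_eq_zero_iff_dvd] at h1
  obtain ⟨k, hk⟩ := h1
  refine ⟨k, ?_⟩
  rw [Finset.sum_congr rfl hm, ← Int.cast_sum, hk]
  push_cast
  rfl

open Classical in
/-- the sign `(-1) ^ z` -/
noncomputable def par (z : ℂ) : ℤˣ := if Ev z then 1 else -1

lemma par_even {z : ℂ} (h : Ev z) : par z = 1 := if_pos h

lemma ev_int {m : ℤ} : Ev (m : ℂ) ↔ Even m := by
  constructor
  · rintro ⟨k, hk⟩
    refine ⟨k, ?_⟩
    have : (m : ℂ) = ((2 * k : ℤ) : ℂ) := by push_cast; exact hk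
    have h2 : m = 2 * k := by exact_mod_cast this
    omega
  · rintro ⟨k, rfl⟩
    exact ⟨k, by push_cast; ring⟩

lemma par_add {z w : ℂ} (hz : ∃ m : ℤ, z = m) (hw : ∃ m : ℤ, w = m) :
    par (z + w) = par z * par w := by
  obtain ⟨m, rfl⟩ := hz
  obtain ⟨n, rfl⟩ := hw
  have h : ((m : ℂ) + n) = ((m + n : ℤ) : ℂ) := by push_cast; rfl
  unfold par
  rw [h]
  simp only [ev_int, Int.even_add]
  by_cases h1 : Even m <;> by_cases h2 : Even n <;> simp [h1, h2]

lemma int_add {z w : ℂ} (hz : ∃ m : ℤ, z = m) (hw : ∃ m : ℤ, w = m) : ∃ m : ℤ, z + w = m := by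
  obtain ⟨m, rfl⟩ := hz
  obtain ⟨n, rfl⟩ := hw
  exact ⟨m + n, by push_cast; rfl⟩

lemma int_sum {ι : Type*} (s : Finset ι) (f : ι → ℂ) (h : ∀ i ∈ s, ∃ m : ℤ, f i = m) :
    ∃ m : ℤ, ∑ i ∈ s, f i = m := by
  classical
  induction s using Finset.induction_on with
  | empty => exact ⟨0, by simp⟩
  | insert a s ha ih =>
    rw [Finset.sum_insert ha]
    exact int_add (h a (Finset.mem_insert_self a s))
      (ih fun i hi => h i (Finset.mem_insert_of_mem hi))

lemma par_sum {ι : Type*} (s : Finset ι) (f : ι → ℂ) (h : ∀ i ∈ s, ∃ m : ℤ, f i = m) :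
    par (∑ i ∈ s, f i) = ∏ i ∈ s, par (f i) := by
  classical
  induction s using Finset.induction_on with
  | empty => simpa using par_even Ev.zero
  | insert a s ha ih =>
    rw [Finset.sum_insert ha, Finset.prod_insert ha, par_add (h a (Finset.mem_insert_self a s))
      (int_sum s f fun i hi => h i (Finset.mem_insert_of_mem hi)),
      ih fun i hi => h i (Finset.mem_insert_of_mem hi)]

end Pool.Agent.W2helper1.SI
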