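import Mathlib
import Pool.Agent.W2helper1.SI.Pair

/-!
# The sum of the multiplicities over a set of square roots of a sign character: independence of the
quotient, and behaviour under induction
-/

set_option autoImplicit false
set_option linter.unusedSectionVars false

namespace Pool.Agent.W2helper1.SI

open Pool.Agent.R389 Pool.Agent.K4H74.ST

section nn

variable {V : Type} [Group V] (ν : V →* ℂˣ)

/-- the linear characters of a quotient `H` of `V` with square `ν` -/
def SS {H : Type} [Group H] (ρ : V →* H) : Set (H →* ℂˣ) := {l | ∀ v, l (ρ v) * l (ρ v) = ν v}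

/-- `SS` as a finset -/
noncomputable def SSF {H : Type} [Group H] [Finite H] (ρ : V →* H) : Finset (H →* ℂˣ) :=
  (@Set.toFinite _ (SS ν ρ) (@Subtype.finite _ (finite_hom H) _)).toFinset

lemma mem_SSF {H : Type} [Group H] [Finite H] {ρ : V →* H} {l : H →* ℂˣ} :
    l ∈ SSF ν ρ ↔ ∀ v, l (ρ v) * l (ρ v) = ν v := by
  rw [SSF, Set.Finite.mem_toFinset]
  rfl

/-- the sum of the multiplicities -/
noncomputable def nn {H : Type} [Group H] [Finite H] (ρ : V →* H) (f : H → ℂ) : ℂ :=
  ∑ l ∈ SSF ν ρ, pair f l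

lemma nn_add {H : Type} [Group H] [Finite H] (ρ : V →* H) (f f' : H → ℂ) :
    nn ν ρ (f + f') = nn ν ρ f + nn ν ρ f' := by
  rw [nn, nn, nn, ← Finset.sum_add_distrib]
  exact Finset.sum_congr rfl fun l _ => pair_add f f' l

lemma nn_smul {H : Type} [Group H] [Finite H] (ρ : V →* H) (c : ℂ) (f : H → ℂ) :
    nn ν ρ (fun h => c * f h) = c * nn ν ρ f := by
  rw [nn, nn, Finset.mul_sum]
  exact Finset.sum_congr rfl fun l _ => pair_smul c f l

lemma nn_sum {H : Type} [Group H] [Finite H] (ρ : V →* H) {ι : Type*} (s : Finset ι)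
    (f : ι → H → ℂ) : nn ν ρ (fun h => ∑ i ∈ s, f i h) = ∑ i ∈ s, nn ν ρ (f i) := by
  simp only [nn]
  rw [Finset.sum_comm]
  exact Finset.sum_congr rfl fun l _ => pair_sum s f l

lemma nn_int {H : Type} [Group H] [Finite H] (ρ : V →* H) {f : H → ℂ} (hf : IsChar f) :
    ∃ m : ℤ, nn ν ρ f = m := int_sum _ _ fun l _ => pair_int hf l

lemma nn_conj {H : Type} [Group H] [Finite H] (ρ : V →* H) (f : H → ℂ) (a : H) :
    nn ν ρ (fun h => f (a⁻¹ * h * a)) = nn ν ρ f :=
  Finset.sum_congr rfl fun l _ => pair_conj f l a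

lemma nn_comp {H H' : Type} [Group H] [Finite H] [Group H'] [Finite H'] (ρ : V →* H')
    (π : H' →* H) (hπ : Function.Surjective π) (f : H → ℂ) :
    nn ν ρ (fun h => f (π h)) = nn ν (π.comp ρ) f := by
  classical
  let Φ : (H →* ℂˣ) → (H' →* ℂˣ) := fun l => l.comp π
  have hΦ : Function.Injective Φ := by
    intro l l' h
    ext x
    obtain ⟨y, rfl⟩ := hπ x
    exact congrArg Units.val (DFunLike.congr_fun h y)
  have h1 : nn ν (π.comp ρ) f = ∑ l ∈ (SSF ν (π.comp ρ)).image Φ, pair (fun h => f (π h)) l := by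
    rw [Finset.sum_image (fun a _ b _ h => hΦ h), nn]
    exact Finset.sum_congr rfl fun l _ => (pair_comp hπ f l).symm
  rw [h1, nn]
  symm
  refine Finset.sum_subset ?_ ?_
  · intro l hl
    obtain ⟨l', hl', rfl⟩ := Finset.mem_image.mp hl
    rw [mem_SSF] at hl' ⊢
    exact hl'
  · intro l hl hnot
    by_cases hk : π.ker ≤ l.ker
    · exfalso
      apply hnot
      rw [Finset.mem_image]
      let l' := π.liftOfSurjective hπ ⟨l, hk⟩
      have h2 : l'.comp π = l := π.liftOfRightInverse_comp _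
        (Function.rightInverse_surjInv hπ) ⟨l, hk⟩
      refine ⟨l', ?_, h2⟩
      rw [mem_SSF] at hl ⊢
      intro v
      rw [← h2] at hl
      exact hl v
    · obtain ⟨k, hk1, hk2⟩ := SetLike.not_le_iff_exists.mp hk
      refine pair_eq_zero (k := k) (fun h => ?_) hk2
      rw [map_mul, MonoidHom.mem_ker.mp hk1, mul_one]

/-- the sum of the multiplicities depends only on the function on `V` -/
theorem nn_congr {H H' : Type} [Group H] [Finite H] [Group H'] [Finite H'] {ρ : V →* H}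
    {ρ' : V →* H'} (hρ : Function.Surjective ρ) (hρ' : Function.Surjective ρ') {f : H → ℂ}
    {f' : H' → ℂ} (h : ∀ v, f (ρ v) = f' (ρ' v)) : nn ν ρ f = nn ν ρ' f' := by
  let R := (ρ.prod ρ').range
  let ρ'' : V →* R := (ρ.prod ρ').rangeRestrict
  let π₁ : R →* H := (MonoidHom.fst H H').comp R.subtype
  let π₂ : R →* H' := (MonoidHom.snd H H').comp R.subtype
  have h1 : π₁.comp ρ'' = ρ := rfl
  have h2 : π₂.comp ρ'' = ρ' := rfl
  have hs1 : Function.Surjective π₁ := by
    intro x
    obtain ⟨v, rfl⟩ := hρ x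
    exact ⟨ρ'' v, rfl⟩
  have hs2 : Function.Surjective π₂ := by
    intro x
    obtain ⟨v, rfl⟩ := hρ' x
    exact ⟨ρ'' v, rfl⟩
  rw [← h1, ← h2, ← nn_comp ν ρ'' π₁ hs1, ← nn_comp ν ρ'' π₂ hs2]
  congr 1
  funext x
  obtain ⟨v, rfl⟩ := (ρ.prod ρ').rangeRestrict_surjective x
  exact h v

/-- the functional for a homomorphism to a finite group -/
noncomputable def NR {G : Type} [Group G] [Finite G] (r : V →* G) (χ : G → ℂ) : ℂ :=
  nn ν r.rangeRestrict (fun h => χ h)

lemma NR_congr {G G' : Type} [Group G] [Finite G] [Group G'] [Finite G'] {r : V →* G}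
    {r' : V →* G'} {χ : G → ℂ} {χ' : G' → ℂ} (h : ∀ v, χ (r v) = χ' (r' v)) :
    NR ν r χ = NR ν r' χ' :=
  nn_congr ν r.rangeRestrict_surjective r'.rangeRestrict_surjective h

lemma NR_add {G : Type} [Group G] [Finite G] (r : V →* G) (χ χ' : G → ℂ) :
    NR ν r (χ + χ') = NR ν r χ + NR ν r χ' :=
  nn_add ν r.rangeRestrict (fun h => χ h) (fun h => χ' h)

lemma NR_int {G : Type} [Group G] [Finite G] (r : V →* G) {χ : G → ℂ} (h : IsChar χ) :
    ∃ m : ℤ, NR ν r χ = m := nn_int ν _ (h.comp r.range.subtype)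

/-- real valued characters -/
lemma NR_real {G : Type} [Group G] [Finite G] (r : V →* G) {χ : G → ℂ} (h : IsChar χ)
    (hr : ∀ g, (starRingEnd ℂ) (χ g) = χ g) (hν : ∀ v, ν v * ν v = 1) (hν1 : ν ≠ 1) :
    Ev (NR ν r χ) := by
  classical
  refine Ev.invol _ _ (fun l => l⁻¹) ?_ ?_ ?_ ?_ ?_
  · intro l hl
    rw [mem_SSF] at hl ⊢
    intro v
    rw [MonoidHom.inv_apply, ← mul_inv, hl]
    exact inv_eq_of_mul_eq_one_left (hν v)
  · intro l _
    exact inv_inv l
  · intro l hl h1
    rw [mem_SSF] at hl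
    apply hν1
    ext v
    rw [← hl v, MonoidHom.one_apply]
    have h2 : (l (r.rangeRestrict v))⁻¹ = l (r.rangeRestrict v) := by
      rw [← MonoidHom.inv_apply, h1]
    nth_rewrite 1 [← h2]
    rw [inv_mul_cancel]
  · intro l _
    exact pair_inv (h.comp r.range.subtype) (fun x => hr x) l
  · intro l _
    exact pair_int (h.comp r.range.subtype) l

/-- linear characters -/
lemma NR_lin_one {G : Type} [Group G] [Finite G] (r : V →* G) (ψ : G →* ℂˣ)
    (h : ∀ v, ψ (r v) * ψ (r v) = ν v) : NR ν r (lc ψ) = 1 := by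
  classical
  let ψ' : r.range →* ℂˣ := ψ.comp r.range.subtype
  have h1 : NR ν r (lc ψ) = ∑ l ∈ SSF ν r.rangeRestrict, pair (lc ψ') l := rfl
  rw [h1, Finset.sum_eq_single ψ', pair_self]
  · intro l _ hl
    exact pair_ne (Ne.symm hl)
  · intro h2
    exfalso
    apply h2
    rw [mem_SSF]
    exact h

lemma NR_lin_zero {G : Type} [Group G] [Finite G] (r : V →* G) (ψ : G →* ℂˣ)
    (h : ¬ ∀ v, ψ (r v) * ψ (r v) = ν v) : NR ν r (lc ψ) = 0 := by
  classical
  let ψ' : r.range →* ℂˣ := ψ.comp r.range.subtype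
  have h1 : NR ν r (lc ψ) = ∑ l ∈ SSF ν r.rangeRestrict, pair (lc ψ') l := rfl
  rw [h1]
  refine Finset.sum_eq_zero fun l hl => ?_
  refine pair_ne fun h2 => h ?_
  rw [mem_SSF] at hl
  rw [← h2] at hl
  exact hl

end nn

/-- a proper subgroup of a `2`-group lies in the kernel of a nontrivial sign character -/
lemma exists_sgn {H : Type} [Group H] [Finite H] (h2 : IsPGroup 2 H) {P : Subgroup H}
    (hP : P ≠ ⊤) : ∃ s : H →* ℂˣ, Sg s ∧ (∀ h ∈ P, s h = 1) ∧ s ≠ 1 := by
  classical
  have : Fact (Nat.Prime 2) := ⟨Nat.prime_two⟩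
  obtain ⟨n, hn⟩ := h2.exists_card_eq
  obtain ⟨m, hm⟩ := (h2.to_subgroup P).exists_card_eq
  have hmn : m < n := by
    have h3 : Nat.card P ≠ Nat.card H := fun h => hP (Subgroup.eq_top_of_card_eq P h)
    have h4 : Nat.card P ∣ Nat.card H := Subgroup.card_subgroup_dvd_card P
    rw [hn, hm] at h3 h4
    have h5 : m ≤ n := (Nat.pow_dvd_pow_iff_le_right (by norm_num)).mp h4
    exact lt_of_le_of_ne h5 fun h => h3 (by rw [h])
  obtain ⟨K, hK, hPK⟩ := Sylow.exists_subgroup_card_pow_prime_le (G := H) 2 (n := m) (m := n - 1)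
    (by rw [hn]; exact pow_dvd_pow 2 (by omega)) P hm (by omega)
  have hi : K.index = 2 := by
    have h3 := K.index_mul_card
    rw [hK, hn] at h3
    have h4 : 2 ^ n = 2 * 2 ^ (n - 1) := by
      rw [← pow_succ']
      congr 1
      omega
    rw [h4] at h3
    exact Nat.eq_of_mul_eq_mul_right (pow_pos (by norm_num) _) h3
  let s : H →* ℂˣ := MonoidHom.mk' (fun v => if v ∈ K then 1 else -1) (by
    intro a b
    have h3 := Subgroup.mul_mem_iff_of_index_two hi (a := a) (b := b)
    by_cases ha : a ∈ K <;> by_cases hb : b ∈ K <;> simp [ha, hb, h3])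
  have hs1 : ∀ v ∈ K, s v = 1 := fun v hv => if_pos hv
  have hs2 : ∀ v, v ∉ K → s v = -1 := fun v hv => if_neg hv
  refine ⟨s, fun v => ?_, fun h hh => hs1 h (hPK hh), fun h => ?_⟩
  · by_cases hv : v ∈ K
    · exact Or.inl (hs1 v hv)
    · exact Or.inr (hs2 v hv)
  · have h5 : K ≠ ⊤ := by
      intro h6
      rw [h6, Subgroup.index_top] at hi
      omega
    obtain ⟨v, hv⟩ : ∃ v, v ∉ K := by
      by_contra h6
      push Not at h6
      exact h5 ((Subgroup.eq_top_iff' K).mpr h6)
    have h7 := hs2 v hv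
    rw [h] at h7
    exact neg_one_ne h7.symm

section ind

variable {V : Type} [Group V] (ν : V →* ℂˣ) {G : Type} [Group G] [Finite G] (r : V →* G)

/-- the translates of a function on a subgroup -/
noncomputable def TT1 (U : Subgroup G) (χ : U → ℂ) (y : G) : ℂ :=
  nn ν r.rangeRestrict (fun h => ext U χ (y⁻¹ * (h : G) * y))

/-- the homomorphism to `U` given by conjugation -/
def cj (U : Subgroup G) (x : G) (hx : ∀ v, x⁻¹ * r v * x ∈ U) : V →* U where
  toFun v := ⟨x⁻¹ * r v * x, hx v⟩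
  map_one' := by
    apply Subtype.ext
    change x⁻¹ * r 1 * x = 1
    rw [map_one, mul_one, inv_mul_cancel]
  map_mul' a b := by
    apply Subtype.ext
    change x⁻¹ * r (a * b) * x = x⁻¹ * r a * x * (x⁻¹ * r b * x)
    rw [map_mul]
    group

lemma ext_class {U : Subgroup G} {χ : U → ℂ} (hχ : IsChar χ) (u : U) (z : G) :
    ext U χ ((u : G)⁻¹ * z * u) = ext U χ z := by
  by_cases hz : z ∈ U
  · have h1 : (u : G)⁻¹ * z * u ∈ U := U.mul_mem (U.mul_mem (U.inv_mem u.2) hz) u.2
    rw [ext_mem _ _ hz, ext_mem _ _ h1]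
    obtain ⟨W, _, _, _, ρ, rfl⟩ := hχ
    have h2 : (⟨(u : G)⁻¹ * z * u, h1⟩ : U) = u⁻¹ * ⟨z, hz⟩ * u⁻¹⁻¹ := by
      apply Subtype.ext
      change (u : G)⁻¹ * z * u = (u : G)⁻¹ * z * ((u : G)⁻¹)⁻¹
      rw [inv_inv]
    rw [h2]
    exact ρ.char_conj _ _
  · have h1 : (u : G)⁻¹ * z * u ∉ U := by
      intro h
      apply hz
      have h2 : z = u * ((u : G)⁻¹ * z * u) * (u : G)⁻¹ := by group
      rw [h2]
      exact U.mul_mem (U.mul_mem u.2 h) (U.inv_mem u.2)
    rw [ext_not _ _ hz, ext_not _ _ h1]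

lemma TT1_right {U : Subgroup G} {χ : U → ℂ} (hχ : IsChar χ) (y : G) (u : U) :
    TT1 ν r U χ (y * u) = TT1 ν r U χ y := by
  unfold TT1
  congr 1
  funext h
  rw [← ext_class hχ u (y⁻¹ * (h : G) * y)]
  congr 1
  group

lemma TT1_left {U : Subgroup G} (χ : U → ℂ) (y : G) (a : r.range) :
    TT1 ν r U χ (a * y) = TT1 ν r U χ y := by
  unfold TT1
  rw [← nn_conj ν r.rangeRestrict (fun h => ext U χ (y⁻¹ * (h : G) * y)) a]
  congr 1
  funext h
  congr 1
  change ((a : G) * y)⁻¹ * h * (a * y) = y⁻¹ * ((a : G)⁻¹ * h * a) * y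
  group

lemma TT1_fixed {U : Subgroup G} (χ : U → ℂ) (x : G) (hx : ∀ v, x⁻¹ * r v * x ∈ U) :
    TT1 ν r U χ x = NR ν (cj r U x hx) χ := by
  refine nn_congr ν r.rangeRestrict_surjective (cj r U x hx).rangeRestrict_surjective fun v => ?_
  exact ext_mem _ _ (hx v)

lemma NR_ind {U : Subgroup G} {χ : U → ℂ} (hχ : IsChar χ) :
    NR ν r (ind U χ) = ∑ᶠ p : G ⧸ U, TT1 ν r U χ p.out := by
  classical
  have : Fintype G := Fintype.ofFinite G
  have : Fintype (G ⧸ U) := Fintype.ofFinite _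
  rw [finsum_eq_sum_of_fintype]
  have h1 : NR ν r (ind U χ) = (Nat.card U : ℂ)⁻¹ * ∑ y : G, TT1 ν r U χ y := by
    have h2 : (fun h : r.range => ind U χ h)
        = fun h => (Nat.card U : ℂ)⁻¹ * (fun h : r.range => ∑ y : G,
          ext U χ (y⁻¹ * (h : G) * y)) h := by
      funext h
      rw [ind_eq]
    rw [NR, h2, nn_smul, nn_sum]
    rfl
  rw [h1]
  have h3 : ∑ y : G, TT1 ν r U χ y
      = ∑ p : G ⧸ U, ∑ y ∈ Finset.univ.filter (fun y : G => (y : G ⧸ U) = p),
        TT1 ν r U χ p.out := by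
    rw [← Finset.sum_fiberwise Finset.univ (fun y : G => (y : G ⧸ U))]
    refine Finset.sum_congr rfl fun p _ => Finset.sum_congr rfl fun y hy => ?_
    have h4 : (y : G ⧸ U) = p := (Finset.mem_filter.mp hy).2
    have h5 : ((p.out : G) : G ⧸ U) = (y : G ⧸ U) := by rw [h4, QuotientGroup.out_eq']
    have h6 : (p.out : G)⁻¹ * y ∈ U := QuotientGroup.eq.mp h5
    have h7 := TT1_right ν r hχ p.out ⟨_, h6⟩
    rw [← h7]
    congr 1
    change y = p.out * ((p.out : G)⁻¹ * y)
    group
  have h8 : ∀ p : G ⧸ U, (Finset.univ.filter (fun y : G => (y : G ⧸ U) = p)).card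
      = Nat.card U := by
    intro p
    rw [← Fintype.card_subtype, ← Nat.card_eq_fintype_card]
    refine Nat.card_congr
      { toFun := fun y => ⟨(p.out : G)⁻¹ * y, QuotientGroup.eq.mp (by
          rw [y.2, QuotientGroup.out_eq'])⟩
        invFun := fun u => ⟨p.out * u, by
          rw [QuotientGroup.mk_mul_of_mem _ u.2, QuotientGroup.out_eq']⟩
        left_inv := fun y => by simp
        right_inv := fun u => by simp }
  rw [h3, Finset.sum_congr rfl (fun p _ => by rw [Finset.sum_const, h8, nsmul_eq_mul]),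
    ← Finset.mul_sum, ← mul_assoc, inv_mul_cancel₀ (card_ne U), one_mul]

variable (hH : IsPGroup 2 r.range)

include hH in
/-- the contribution of an orbit with more than one element is even -/
lemma orbit_even {U : Subgroup G} {χ : U → ℂ} (hχ : IsChar χ) (p : G ⧸ U)
    (hp : ∃ a : r.range, a • p ≠ p) :
    Ev ((Nat.card (MulAction.orbit r.range p) : ℂ) * TT1 ν r U χ p.out) := by
  classical
  let P : Subgroup r.range := MulAction.stabilizer r.range p
  let y : G := p.out
  have hmem : ∀ h : r.range, h ∈ P ↔ y⁻¹ * (h : G) * y ∈ U := by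
    intro h
    rw [MulAction.mem_stabilizer_iff]
    have h1 : h • p = (((h : G) * y : G) : G ⧸ U) := by
      conv_lhs => rw [← QuotientGroup.out_eq' p]
      rfl
    have h2 : p = ((y : G) : G ⧸ U) := (QuotientGroup.out_eq' p).symm
    rw [h1]
    conv_lhs => rw [h2]
    rw [eq_comm, QuotientGroup.eq, mul_assoc]
  have hPtop : P ≠ ⊤ := by
    intro h
    obtain ⟨a, ha⟩ := hp
    apply ha
    have : a ∈ P := by rw [h]; trivial
    exact this
  obtain ⟨s, hs, hsP, hs1⟩ := exists_sgn hH hPtop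
  let j : P →* U :=
    { toFun := fun h => ⟨y⁻¹ * ((h : r.range) : G) * y, (hmem h).mp h.2⟩
      map_one' := by
        apply Subtype.ext
        change y⁻¹ * 1 * y = 1
        group
      map_mul' := by
        intro a b
        apply Subtype.ext
        change y⁻¹ * (((a : r.range) : G) * ((b : r.range) : G)) * y
          = y⁻¹ * ((a : r.range) : G) * y * (y⁻¹ * ((b : r.range) : G) * y)
        group }
  have hθ : IsChar (fun h : P => χ (j h)) := hχ.comp j
  have hcard : (Nat.card (MulAction.orbit r.range p)) * Nat.card P = Nat.card r.range := by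
    rw [← Nat.card_prod]
    exact Nat.card_congr (MulAction.orbitProdStabilizerEquivGroup r.range p)
  have key : ∀ l : r.range →* ℂˣ, (Nat.card (MulAction.orbit r.range p) : ℂ) *
      pair (fun h : r.range => ext U χ (y⁻¹ * (h : G) * y)) l
        = pair (fun h : P => χ (j h)) (l.comp P.subtype) := by
    intro l
    have : Fintype r.range := Fintype.ofFinite _
    have : Fintype P := Fintype.ofFinite _
    rw [pair, pair, finsum_eq_sum_of_fintype, finsum_eq_sum_of_fintype, ← mul_assoc, ← hcard]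
    have h1 : (Nat.card (MulAction.orbit r.range p) : ℂ) *
        ((Nat.card (MulAction.orbit r.range p) * Nat.card P : ℕ) : ℂ)⁻¹
        = (Nat.card P : ℂ)⁻¹ := by
      have h2 : (Nat.card (MulAction.orbit r.range p) : ℂ) ≠ 0 := by
        intro h3
        have h4 : Nat.card (MulAction.orbit r.range p) = 0 := by exact_mod_cast h3
        rw [h4, zero_mul] at hcard
        exact Nat.card_pos.ne hcard
      push_cast
      field_simp
    rw [h1]
    congr 1
    have h3 : ∑ h : P, χ (j h) * ((((l.comp P.subtype) h)⁻¹ : ℂˣ) : ℂ)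
        = ∑ h ∈ Finset.univ.filter (fun h : r.range => h ∈ P),
          ext U χ (y⁻¹ * (h : G) * y) * (((l h)⁻¹ : ℂˣ) : ℂ) := by
      rw [Finset.sum_subtype (Finset.univ.filter (fun h : r.range => h ∈ P)) (p := fun h => h ∈ P)
        (fun x => by simp)]
      refine Finset.sum_congr rfl fun h _ => ?_
      rw [ext_mem _ _ ((hmem h).mp h.2)]
      rfl
    rw [h3, Finset.sum_filter]
    refine Finset.sum_congr rfl fun h _ => ?_
    split_ifs with h4
    · rfl
    · rw [ext_not _ _ (fun h5 => h4 ((hmem h).mpr h5)), zero_mul]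
  unfold TT1
  rw [nn, Finset.mul_sum]
  rw [Finset.sum_congr rfl (fun l _ => key l)]
  have hss : ∀ h, s h * s h = 1 := by
    intro h
    rcases hs h with h1 | h1 <;> rw [h1] <;> simp
  refine Ev.invol _ _ (fun l => l * s) ?_ ?_ ?_ ?_ ?_
  · intro l hl
    rw [mem_SSF] at hl ⊢
    intro v
    rw [← hl v]
    rcases hs (r.rangeRestrict v) with h1 | h1 <;> rw [MonoidHom.mul_apply, h1] <;> simp
  · intro l _
    ext h
    change ((l h * s h * s h : ℂˣ) : ℂ) = _
    rw [mul_assoc, hss, mul_one]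
  · intro l _ h
    apply hs1
    ext x
    have h1 : l x * s x = l x := DFunLike.congr_fun h x
    rw [mul_eq_left.mp h1]
    rfl
  · intro l _
    congr 1
    ext h
    rw [MonoidHom.comp_apply, MonoidHom.comp_apply, MonoidHom.mul_apply]
    change ((l h * s h : ℂˣ) : ℂ) = _
    rw [hsP _ h.2, mul_one]
    rfl
  · intro l _
    exact pair_int hθ _

include hH in
/-- the contribution of all orbits with more than one element is even -/
lemma nonfixed_even {U : Subgroup G} {χ : U → ℂ} (hχ : IsChar χ) [Fintype (G ⧸ U)]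
    (s : Finset (G ⧸ U)) (hs : ∀ p, p ∈ s ↔ ∃ a : r.range, a • p ≠ p) :
    Ev (∑ p ∈ s, TT1 ν r U χ p.out) := by
  classical
  let q : G ⧸ U → MulAction.orbitRel.Quotient r.range (G ⧸ U) := fun p => Quotient.mk'' p
  have hT : ∀ (a : r.range) (p : G ⧸ U), TT1 ν r U χ (a • p).out = TT1 ν r U χ p.out := by
    intro a p
    have h1 : a • p = (((a : G) * p.out : G) : G ⧸ U) := by
      conv_lhs => rw [← QuotientGroup.out_eq' p]
      rfl
    have h2 : (((a • p).out : G) : G ⧸ U) = (((a : G) * p.out : G) : G ⧸ U) := by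
      rw [QuotientGroup.out_eq', h1]
    have h3 := QuotientGroup.eq.mp h2
    have h4 := TT1_right ν r hχ (a • p).out ⟨_, h3⟩
    rw [← h4, ← TT1_left ν r χ p.out a]
    congr 1
    change (a • p).out * (((a • p).out)⁻¹ * ((a : G) * p.out)) = _
    group
  have hfix : ∀ (a : r.range) (p : G ⧸ U), p ∈ s → a • p ∈ s := by
    intro a p hp
    rw [hs] at hp ⊢
    obtain ⟨b, hb⟩ := hp
    refine ⟨a * b * a⁻¹, fun h => hb ?_⟩
    rw [smul_smul, inv_mul_cancel_right, mul_smul] at h
    exact MulAction.injective a h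
  rw [← Finset.sum_fiberwise_of_maps_to (g := q) (t := s.image q)
    (fun p hp => Finset.mem_image_of_mem q hp)]
  refine Ev.sum _ _ fun o ho => ?_
  obtain ⟨p, hp, rfl⟩ := Finset.mem_image.mp ho
  have h1 : ∀ p' ∈ s.filter (fun p' => q p' = q p), TT1 ν r U χ p'.out = TT1 ν r U χ p.out := by
    intro p' hp'
    have h2 : q p' = q p := (Finset.mem_filter.mp hp').2
    have h3 : p' ∈ MulAction.orbit r.range p := Quotient.exact h2
    obtain ⟨a, rfl⟩ := h3
    exact hT a p
  have h4 : (s.filter (fun p' => q p' = q p)).card = Nat.card (MulAction.orbit r.range p) := by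
    have h5 : ((s.filter (fun p' => q p' = q p) : Finset (G ⧸ U)) : Set (G ⧸ U))
        = MulAction.orbit r.range p := by
      ext p'
      rw [Finset.mem_coe, Finset.mem_filter]
      constructor
      · rintro ⟨_, h2⟩
        exact Quotient.exact h2
      · intro h2
        refine ⟨?_, Quotient.sound h2⟩
        obtain ⟨a, rfl⟩ := h2
        exact hfix a p hp
    rw [← h5, Nat.card_coe_set_eq, Set.ncard_coe_finset]
  rw [Finset.sum_congr rfl h1, Finset.sum_const, h4, nsmul_eq_mul]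
  exact orbit_even ν r hH hχ p ((hs p).mp hp)

include hH in
/-- **Induction.** -/
theorem par_ind {U : Subgroup G} {χ : U → ℂ} (hχ : IsChar χ) {J : Type} [Fintype J] (x : J → G)
    (hx : ∀ j v, (x j)⁻¹ * r v * x j ∈ U)
    (hJ : ∀ y : G, (∀ v, y⁻¹ * r v * y ∈ U) → ∃! j, (x j)⁻¹ * y ∈ U) :
    par (NR ν r (ind U χ)) = ∏ j, par (NR ν (cj r U (x j) (hx j)) χ) := by
  classical
  have : Fintype (G ⧸ U) := Fintype.ofFinite _
  rw [NR_ind ν r hχ, finsum_eq_sum_of_fintype]
  let s : Finset (G ⧸ U) := Finset.univ.filter (fun p => ∃ a : r.range, a • p ≠ p)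
  have hs : ∀ p, p ∈ s ↔ ∃ a : r.range, a • p ≠ p := fun p => by simp [s]
  have hfx : ∀ (y : G), (∀ a : r.range, a • ((y : G) : G ⧸ U) = ((y : G) : G ⧸ U)) ↔
      ∀ v, y⁻¹ * r v * y ∈ U := by
    intro y
    constructor
    · intro h v
      have h1 : (((r v : G) * y : G) : G ⧸ U) = ((y : G) : G ⧸ U) := h ⟨r v, v, rfl⟩
      have h2 := QuotientGroup.eq.mp h1.symm
      rwa [← mul_assoc] at h2
    · rintro h ⟨_, v, rfl⟩
      change (((r v : G) * y : G) : G ⧸ U) = ((y : G) : G ⧸ U)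
      rw [eq_comm, QuotientGroup.eq, ← mul_assoc]
      exact h v
  rw [← Finset.sum_filter_add_sum_filter_not Finset.univ (fun p => ∃ a : r.range, a • p ≠ p)]
  have h1 : ∑ p ∈ Finset.univ.filter (fun p : G ⧸ U => ¬ ∃ a : r.range, a • p ≠ p),
      TT1 ν r U χ p.out = ∑ j, NR ν (cj r U (x j) (hx j)) χ := by
    symm
    refine Finset.sum_bij (fun j _ => ((x j : G) : G ⧸ U)) ?_ ?_ ?_ ?_
    · intro j _
      rw [Finset.mem_filter]
      refine ⟨Finset.mem_univ _, ?_⟩
      push Not
      exact (hfx (x j)).mpr (hx j)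
    · intro i _ j _ hij
      obtain ⟨k, -, hk⟩ := hJ (x j) (hx j)
      have h2 : i = k := hk i (QuotientGroup.eq.mp hij)
      have h3 : j = k := hk j (by
        change (x j)⁻¹ * x j ∈ U
        rw [inv_mul_cancel]
        exact U.one_mem)
      rw [h2, h3]
    · intro p hp
      have h2 := (Finset.mem_filter.mp hp).2
      push Not at h2
      have h3 : ((p.out : G) : G ⧸ U) = p := QuotientGroup.out_eq' p
      rw [← h3] at h2
      obtain ⟨j, hj, -⟩ := hJ p.out ((hfx _).mp h2)
      exact ⟨j, Finset.mem_univ _, by rw [QuotientGroup.eq.mpr hj, h3]⟩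
    · intro j _
      rw [← TT1_fixed ν r χ (x j) (hx j)]
      have h3 : ((((x j : G) : G ⧸ U).out : G) : G ⧸ U) = ((x j : G) : G ⧸ U) :=
        QuotientGroup.out_eq' _
      have h4 := TT1_right ν r hχ (x j) ⟨_, QuotientGroup.eq.mp h3.symm⟩
      rw [← h4]
      congr 1
      change x j * ((x j)⁻¹ * _) = _
      group
  have h2 : Ev (∑ p ∈ Finset.univ.filter (fun p : G ⧸ U => ∃ a : r.range, a • p ≠ p),
      TT1 ν r U χ p.out) := nonfixed_even ν r hH hχ _ hs
  rw [h1, par_add (by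
    obtain ⟨m, hm⟩ := h2
    exact ⟨2 * m, by rw [hm]; push_cast; rfl⟩)
    (int_sum _ _ fun j _ => NR_int ν _ hχ), par_even h2, one_mul,
    par_sum _ _ fun j _ => NR_int ν _ hχ]

end ind

end Pool.Agent.W2helper1.SI
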