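import Mathlib
import Pool.Agent.W2helper1.SI.Ind

/-!
# The inductive invariant attached to a field with a pro-`2` absolute Galois group and a sign
character of this group
-/

set_option autoImplicit false
set_option linter.unusedSectionVars false

namespace Pool.Agent.W2helper1.SI

open Pool.Agent.R389 Pool.Agent.K4H74.ST

/-- an algebraic closure of `ℚ` -/
def Om : Type := AlgebraicClosure ℚ

noncomputable instance : Field Om := inferInstanceAs (Field (AlgebraicClosure ℚ))

instance : CharZero Om := inferInstanceAs (CharZero (AlgebraicClosure ℚ))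

instance : IsAlgClosed Om := inferInstanceAs (IsAlgClosed (AlgebraicClosure ℚ))

instance : Algebra.IsAlgebraic ℚ Om := by
  have h := AlgebraicClosure.isAlgebraic ℚ
  have h1 : (AlgebraicClosure.instAlgebra ℚ : Algebra ℚ (AlgebraicClosure ℚ))
      = DivisionRing.toRatAlgebra := Subsingleton.elim _ _
  rw [h1] at h
  exact h

instance : IsAlgClosure ℚ Om := ⟨inferInstance, inferInstance⟩

instance : IsGalois ℚ Om := IsAlgClosure.isGalois ℚ Om

section emb

variable {F E : Type} [Field F] [NumberField F] [Field E] [NumberField E] [Algebra F E]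

lemma fin_ext (F E : Type) [Field F] [NumberField F] [Field E] [NumberField E] [Algebra F E] :
    FiniteDimensional F E := Module.Finite.of_restrictScalars_finite ℚ F E

lemma exists_lft (E : Type) [Field E] [NumberField E] [Algebra F E] (τ : F →+* Om) :
    ∃ ε : E →+* Om, ∀ y, ε (algebraMap F E y) = τ y := by
  have := fin_ext F E
  let _ : Algebra F Om := τ.toAlgebra
  let ε : E →ₐ[F] Om := IsAlgClosed.lift
  exact ⟨ε, fun y => ε.commutes y⟩

/-- an extension of an embedding -/
noncomputable def lft (E : Type) [Field E] [NumberField E] [Algebra F E] (τ : F →+* Om) :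
    E →+* Om := (exists_lft E τ).choose

lemma lft_spec (τ : F →+* Om) (y : F) : lft E τ (algebraMap F E y) = τ y :=
  (exists_lft E τ).choose_spec y

lemma exists_rr [IsGalois F E] (ε ε' : E →+* Om)
    (h : ∀ y : F, ε' (algebraMap F E y) = ε (algebraMap F E y)) :
    ∃ g : E ≃ₐ[F] E, ∀ x, ε' x = ε (g x) := by
  let _ : Algebra E Om := ε.toAlgebra
  let _ : Algebra F Om := (ε.comp (algebraMap F E)).toAlgebra
  have : IsScalarTower F E Om := IsScalarTower.of_algebraMap_eq fun x => rfl
  let f : E →ₐ[F] Om := { ε' with commutes' := fun y => h y }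
  refine ⟨Normal.algHomEquivAut F Om E f, fun x => ?_⟩
  have h1 := (Normal.algHomEquivAut F Om E).symm_apply_apply f
  exact (DFunLike.congr_fun h1 x).symm

end emb

section rr

variable (M : IntermediateField ℚ Om)

variable {F E : Type} [Field F] [NumberField F] [Field E] [NumberField E] [Algebra F E]
  [IsGalois F E]

lemma exists_rr' (ε : E →+* Om) (hε : ∀ y : F, ε (algebraMap F E y) ∈ M) (v : Om ≃ₐ[M] Om) :
    ∃ g : E ≃ₐ[F] E, ∀ x, v (ε x) = ε (g x) :=
  exists_rr ε ((v : Om →+* Om).comp ε) fun y => v.commutes ⟨_, hε y⟩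

/-- restriction of the automorphisms of `Om` over `M` along an embedding -/
noncomputable def rr (ε : E →+* Om) (hε : ∀ y : F, ε (algebraMap F E y) ∈ M) :
    (Om ≃ₐ[M] Om) →* (E ≃ₐ[F] E) where
  toFun v := (exists_rr' M ε hε v).choose
  map_one' := by
    ext x
    apply ε.injective
    rw [← (exists_rr' M ε hε 1).choose_spec x]
    rfl
  map_mul' v w := by
    ext x
    apply ε.injective
    rw [← (exists_rr' M ε hε (v * w)).choose_spec x]
    change v (w (ε x)) = ε ((exists_rr' M ε hε v).choose ((exists_rr' M ε hε w).choose x))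
    rw [← (exists_rr' M ε hε v).choose_spec, ← (exists_rr' M ε hε w).choose_spec]

lemma rr_spec (ε : E →+* Om) (hε : ∀ y : F, ε (algebraMap F E y) ∈ M) (v : Om ≃ₐ[M] Om) (x : E) :
    ε (rr M ε hε v x) = v (ε x) := ((exists_rr' M ε hε v).choose_spec x).symm

lemma mem_of_fixed {x : Om} (h : ∀ v : Om ≃ₐ[M] Om, v x = x) : x ∈ M := by
  have h1 := (InfiniteGalois.mem_range_algebraMap_iff_fixed (k := M) x).mpr h
  obtain ⟨y, rfl⟩ := h1
  exact y.2

/-- independence of the embedding -/
lemma rr_conj (ε ε' : E →+* Om) (hε : ∀ y : F, ε (algebraMap F E y) ∈ M)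
    (hε' : ∀ y : F, ε' (algebraMap F E y) ∈ M)
    (h : ∀ y : F, ε' (algebraMap F E y) = ε (algebraMap F E y)) {χ : (E ≃ₐ[F] E) → ℂ}
    (hχ : IsChar χ) (v : Om ≃ₐ[M] Om) : χ (rr M ε' hε' v) = χ (rr M ε hε v) := by
  obtain ⟨g, hg⟩ := exists_rr ε ε' h
  have h1 : rr M ε' hε' v = g⁻¹ * rr M ε hε v * g⁻¹⁻¹ := by
    ext x
    apply ε'.injective
    rw [rr_spec, hg, inv_inv, ← rr_spec M ε hε v (g x), hg]
    congr 1
    change _ = g (g⁻¹ (rr M ε hε v (g x)))
    exact (AlgEquiv.apply_symm_apply g _).symm
  rw [h1]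
  obtain ⟨W, _, _, _, ρ, rfl⟩ := hχ
  exact ρ.char_conj _ _

/-- **The images are `2`-groups.** -/
theorem range_two (hM : ∀ x : Om, Odd (minpoly M x).natDegree → x ∈ M) (ε : E →+* Om)
    (hε : ∀ y : F, ε (algebraMap F E y) ∈ M) : IsPGroup 2 (rr M ε hε).range := by
  classical
  have hfin := fin_ext F E
  have : Fact (Nat.Prime 2) := ⟨Nat.prime_two⟩
  let r := rr M ε hε
  obtain ⟨P⟩ : Nonempty (Sylow 2 r.range) := inferInstance
  let P' : Subgroup (E ≃ₐ[F] E) := (P : Subgroup r.range).map r.range.subtype
  have key : ∀ θ : E, (∀ g ∈ P', g θ = θ) → ∀ v, r v θ = θ := by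
    intro θ hθ
    have hodd : Odd (minpoly M (ε θ)).natDegree := by
      have hint : IsIntegral M (ε θ) := (Algebra.IsIntegral.isIntegral (R := ℚ) (ε θ)).tower_top
      have h1 := Polynomial.card_rootSet_eq_natDegree (K := Om)
        (Algebra.IsSeparable.isSeparable M (ε θ)) (IsAlgClosed.splits _)
      have h2 : (minpoly M (ε θ)).rootSet Om = ε '' (MulAction.orbit r.range θ) := by
        ext y
        rw [← isConjRoot_iff_mem_minpoly_rootSet hint]
        have h5 : IsConjRoot M (ε θ) y ↔ ∃ v : Om ≃ₐ[M] Om, v (ε θ) = y :=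
          ⟨fun h => isConjRoot_iff_exists_algEquiv.mp h.symm,
            fun h => (isConjRoot_iff_exists_algEquiv.mpr h).symm⟩
        rw [h5]
        constructor
        · rintro ⟨v, rfl⟩
          exact ⟨_, ⟨⟨r v, v, rfl⟩, rfl⟩, rr_spec M ε hε v θ⟩
        · rintro ⟨_, ⟨⟨_, v, rfl⟩, rfl⟩, rfl⟩
          exact ⟨v, (rr_spec M ε hε v θ).symm⟩
      have h3 : (minpoly M (ε θ)).natDegree = Nat.card (MulAction.orbit r.range θ) := by
        rw [← h1, ← Nat.card_eq_fintype_card, h2]
        exact Nat.card_image_of_injective ε.injective _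
      rw [h3]
      have h4 : Nat.card (MulAction.orbit r.range θ) * Nat.card (MulAction.stabilizer r.range θ)
          = Nat.card r.range := by
        rw [← Nat.card_prod]
        exact Nat.card_congr (MulAction.orbitProdStabilizerEquivGroup r.range θ)
      have h5 : (P : Subgroup r.range) ≤ MulAction.stabilizer r.range θ := by
        intro g hg
        rw [MulAction.mem_stabilizer_iff]
        exact hθ _ (Subgroup.mem_map_of_mem r.range.subtype hg)
      have h6 : (MulAction.stabilizer r.range θ).index ∣ (P : Subgroup r.range).index :=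
        Subgroup.index_dvd_of_le h5
      have h7 : ¬ 2 ∣ (P : Subgroup r.range).index := P.not_dvd_index
      have h8 : (MulAction.stabilizer r.range θ).index = Nat.card (MulAction.orbit r.range θ) := by
        have h9 := (MulAction.stabilizer r.range θ).index_mul_card
        rw [← h4] at h9
        exact Nat.eq_of_mul_eq_mul_right Nat.card_pos h9
      rw [← h8, ← Nat.not_even_iff_odd, even_iff_two_dvd]
      exact fun h => h7 (h.trans h6)
    have h1 := hM _ hodd
    intro v
    apply ε.injective
    rw [rr_spec]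
    exact v.commutes ⟨_, h1⟩
  have h1 : r.range ≤ P' := by
    rw [← IntermediateField.fixingSubgroup_fixedField P']
    rintro _ ⟨v, rfl⟩
    rw [IntermediateField.mem_fixingSubgroup_iff]
    intro x hx
    refine key x (fun g hg => ?_) v
    exact hx ⟨g, hg⟩
  have h2 : (P : Subgroup r.range) = ⊤ := by
    rw [eq_top_iff]
    intro g _
    obtain ⟨g', hg', h3⟩ := h1 g.2
    have h4 : g' = g := Subtype.ext h3
    rwa [← h4]
  have h3 := P.isPGroup'
  rw [h2] at h3
  exact IsPGroup.of_injective h3 (Subgroup.topEquiv.symm : r.range ≃* _).toMonoidHom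
    Subgroup.topEquiv.symm.injective

end rr

end Pool.Agent.W2helper1.SI
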