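import Mathlib
import Pool.Agent.K4H74.SC.Sum
import Pool.Agent.W401.Cheb.Main

/-!
# The Artin L-series of a class function over `ℚ` determines the function
-/

set_option autoImplicit false
set_option linter.unusedSectionVars false

namespace Pool.Agent.W2helper1.SI

open NumberField Ideal IsDedekindDomain Pool.Agent.K4H74.SC Filter LSeries
open scoped Pointwise

lemma norm_nat (n : ℕ) : (span {(n : 𝓞 ℚ)}).absNorm = n := by
  rw [absNorm_span_natCast, RingOfIntegers.rank, Module.finrank_self, pow_one]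

lemma absNorm_dvd {I : Ideal (𝓞 ℚ)} {n : ℕ} (h : (n : 𝓞 ℚ) ∈ I) : absNorm I ∣ n := by
  have h1 := absNorm_dvd_absNorm_of_le ((span_singleton_le_iff_mem I).mpr h)
  rwa [norm_nat] at h1

/-- the norms of the primes of `ℚ` are the prime numbers -/
lemma norm_prime (p : HeightOneSpectrum (𝓞 ℚ)) : (absNorm p.asIdeal).Prime := by
  have hp := p.isPrime
  have h0 : absNorm p.asIdeal ≠ 0 := by
    rw [Ne, Ideal.absNorm_eq_zero_iff]
    exact p.ne_bot
  rw [Nat.prime_iff]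
  refine ⟨h0, ?_, ?_⟩
  · intro h
    rw [Nat.isUnit_iff, absNorm_eq_one_iff] at h
    exact hp.ne_top h
  · intro a b hab
    have h1 : ((a * b : ℕ) : 𝓞 ℚ) ∈ p.asIdeal := by
      obtain ⟨c, hc⟩ := hab
      rw [hc, Nat.cast_mul]
      exact p.asIdeal.mul_mem_right _ (absNorm_mem _)
    rw [Nat.cast_mul] at h1
    rcases hp.mem_or_mem h1 with h2 | h2
    · exact Or.inl (absNorm_dvd h2)
    · exact Or.inr (absNorm_dvd h2)

lemma eq_span (p : HeightOneSpectrum (𝓞 ℚ)) :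
    p.asIdeal = span {((absNorm p.asIdeal : ℕ) : 𝓞 ℚ)} := by
  have h1 : span {((absNorm p.asIdeal : ℕ) : 𝓞 ℚ)} ≤ p.asIdeal :=
    (span_singleton_le_iff_mem _).mpr (absNorm_mem _)
  obtain ⟨J, hJ⟩ := dvd_iff_le.mpr h1
  have h2 := congrArg absNorm hJ
  rw [norm_nat, map_mul] at h2
  have h0 : 0 < absNorm p.asIdeal := (norm_prime p).pos
  have h3 : absNorm J = 1 := by
    have h4 : absNorm p.asIdeal * absNorm J = absNorm p.asIdeal * 1 := by rw [← h2, mul_one]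
    exact Nat.eq_of_mul_eq_mul_left h0 h4
  rw [absNorm_eq_one_iff] at h3
  rw [hJ, h3, mul_top]

/-- the prime power attached to an index -/
noncomputable def ix (x : HeightOneSpectrum (𝓞 ℚ) × ℕ+) : ℕ := absNorm x.1.asIdeal ^ (x.2 : ℕ)

lemma ix_inj : Function.Injective ix := by
  rintro ⟨p, n⟩ ⟨q, m⟩ h
  change absNorm p.asIdeal ^ (n : ℕ) = absNorm q.asIdeal ^ (m : ℕ) at h
  have hp := norm_prime p
  have hq := norm_prime q
  have h1 : absNorm p.asIdeal = absNorm q.asIdeal := by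
    have h2 : absNorm p.asIdeal ∣ absNorm q.asIdeal ^ (m : ℕ) := by
      rw [← h]
      exact dvd_pow_self _ n.ne_zero
    exact (Nat.prime_dvd_prime_iff_eq hp hq).mp (hp.dvd_of_dvd_pow h2)
  rw [h1] at h
  have h3 : (n : ℕ) = m := Nat.pow_right_injective hq.two_le h
  have h4 : p = q := HeightOneSpectrum.ext (by rw [eq_span p, eq_span q, h1])
  rw [h4, PNat.eq h3]

lemma ix_ne (x : HeightOneSpectrum (𝓞 ℚ) × ℕ+) : ix x ≠ 0 :=
  pow_ne_zero _ (norm_prime x.1).ne_zero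

section

variable {N : Type} [Field N] [NumberField N]

/-- the coefficients of the logarithm of the Artin L-series -/
noncomputable def cf (θ : (N ≃ₐ[ℚ] N) → ℂ) : ℕ → ℂ :=
  Function.extend ix (fun x => frobMean ℚ N θ x.1.asIdeal x.2 / ((x.2 : ℕ) : ℂ)) 0

lemma term_ix (θ : (N ≃ₐ[ℚ] N) → ℂ) (s : ℂ) (x : HeightOneSpectrum (𝓞 ℚ) × ℕ+) :
    LSeries.term (cf θ) s (ix x) = logTerm ℚ N θ s x := by
  rw [LSeries.term_of_ne_zero (ix_ne x), cf, ix_inj.extend_apply, logTerm, div_div]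
  congr 2
  rw [ix, Complex.natCast_cpow_natCast_mul, Nat.cast_pow]

lemma hasSum_cf (θ : (N ≃ₐ[ℚ] N) → ℂ) {s l : ℂ} :
    HasSum (LSeries.term (cf θ) s) l ↔ HasSum (logTerm ℚ N θ s) l := by
  have h1 : LSeries.term (cf θ) s ∘ ix = logTerm ℚ N θ s := by
    funext x
    exact term_ix θ s x
  rw [← h1]
  symm
  refine ix_inj.hasSum_iff fun m hm => ?_
  rw [LSeries.term_def]
  split_ifs
  · rfl
  · rw [cf, Function.extend_apply' _ _ _ (fun ⟨x, hx⟩ => hm ⟨x, hx⟩), Pi.zero_apply, zero_div]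

variable [IsGalois ℚ N]

lemma frob_one (g₀ : N ≃ₐ[ℚ] N) :
    ∃ (p : HeightOneSpectrum (𝓞 ℚ)), ∀ θ : (N ≃ₐ[ℚ] N) → ℂ,
      (∀ g x : N ≃ₐ[ℚ] N, θ (x * g * x⁻¹) = θ g) →
      frobMean ℚ N θ p.asIdeal 1 = θ g₀ / p.asIdeal.ramificationIdxIn (𝓞 N) := by
  classical
  have hft : Fintype (N ≃ₐ[ℚ] N) := Fintype.ofFinite _
  obtain ⟨D, hD, hTor⟩ := Pool.Agent.W401.Cheb.torsor N
  obtain ⟨l, ⟨hl, hx⟩, hlD⟩ := (Pool.Agent.W401.Cheb.infinite_frob N g₀).exists_gt D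
  have : Fact l.Prime := ⟨hl⟩
  have htor := hTor l (fun h => absurd (Nat.le_of_dvd hD h) (not_le.mpr hlD))
  obtain ⟨φ, hφ⟩ : ∃ φ : 𝓞 N →+* AlgebraicClosure (ZMod l),
      Pool.Agent.W401.Cheb.HasFrob l φ g₀ := by
    rw [Pool.Agent.W401.Cheb.xp, dif_pos hl] at hx
    obtain ⟨⟨φ, hφ⟩⟩ := (Nat.card_ne_zero.mp hx).1
    exact ⟨φ, hφ⟩
  let P : Ideal (𝓞 N) := RingHom.ker φ
  have hP : P.IsPrime := RingHom.ker_isPrime φ
  have hlP : ((l : ℕ) : 𝓞 N) ∈ P := by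
    rw [RingHom.mem_ker, map_natCast]
    exact CharP.cast_eq_zero _ l
  have hlp : ((l : ℕ) : 𝓞 ℚ) ∈ P.under (𝓞 ℚ) := by
    rw [Ideal.under, Ideal.mem_comap, map_natCast]
    exact hlP
  have hp : (P.under (𝓞 ℚ)).IsPrime := inferInstance
  let p : HeightOneSpectrum (𝓞 ℚ) := ⟨P.under (𝓞 ℚ), hp, fun h => by
    rw [h, Ideal.mem_bot, Nat.cast_eq_zero] at hlp
    exact hl.ne_zero hlp⟩
  have hnorm : absNorm p.asIdeal = l :=
    (Nat.prime_dvd_prime_iff_eq (norm_prime p) hl).mp (absNorm_dvd hlp)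
  have hlies : P.LiesOver p.asIdeal := ⟨rfl⟩
  have hpp : p.asIdeal.IsPrime := p.isPrime
  refine ⟨p, fun θ hθ => ?_⟩
  rw [frobMean_eq hθ p.ne_bot 1 P, hnorm, pow_one]
  congr 1
  have hFr : ∀ g : N ≃ₐ[ℚ] N, Fr P l g ↔ g = g₀ := by
    intro g
    constructor
    · intro h
      refine Pool.Agent.W401.Cheb.frob_unique htor (φ := φ) (fun y => ?_) hφ
      have h1 := h y
      rw [RingHom.mem_ker, map_sub, map_pow, sub_eq_zero] at h1
      exact h1
    · rintro rfl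
      intro y
      rw [RingHom.mem_ker, map_sub, map_pow, sub_eq_zero]
      exact hφ y
  rw [frSum, Finset.sum_eq_single g₀]
  · rw [if_pos ((hFr g₀).mpr rfl)]
  · intro g _ hg
    rw [if_neg (fun h => hg ((hFr g).mp h))]
  · intro h
    exact absurd (Finset.mem_univ _) h

/-- the logarithm of the L-series tends to `0` -/
lemma tendsto_log (η : (N ≃ₐ[ℚ] N) → ℂ) :
    Tendsto (fun t : ℝ => ∑' x, logTerm ℚ N η t x) atTop (nhds 0) := by
  have hs : ∀ s : ℂ, 1 < s.re →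
      HasSum (LSeries.term (cf η) s) (∑' x, logTerm ℚ N η s x) := fun s hs =>
    (hasSum_cf η).mpr (logTerm_summable η hs).hasSum
  have h1 : LSeriesSummable (cf η) 2 := (hs 2 (by norm_num)).summable
  have h2 : abscissaOfAbsConv (cf η) < ⊤ :=
    lt_of_le_of_lt h1.abscissaOfAbsConv_le (EReal.coe_lt_top _)
  have h3 := LSeries.tendsto_atTop h2
  have h4 : cf η 1 = 0 := by
    rw [cf, Function.extend_apply' _ _ _ ?_, Pi.zero_apply]
    rintro ⟨x, hx⟩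
    have h5 := (norm_prime x.1).one_lt
    have h6 : 1 < ix x := Nat.one_lt_pow x.2.ne_zero h5
    omega
  rw [h4] at h3
  refine h3.congr' ?_
  filter_upwards [eventually_gt_atTop 1] with x hx
  exact (hs x (by rwa [Complex.ofReal_re])).tsum_eq

/-- **Uniqueness.** -/
theorem eq_of_log (θ θ' : (N ≃ₐ[ℚ] N) → ℂ)
    (hθ : ∀ g x : N ≃ₐ[ℚ] N, θ (x * g * x⁻¹) = θ g)
    (hθ' : ∀ g x : N ≃ₐ[ℚ] N, θ' (x * g * x⁻¹) = θ' g)
    (h : ∀ᶠ t : ℝ in atTop, ∑' x, logTerm ℚ N θ t x = ∑' x, logTerm ℚ N θ' t x) : θ = θ' := by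
  have hs : ∀ (η : (N ≃ₐ[ℚ] N) → ℂ) (s : ℂ), 1 < s.re →
      HasSum (LSeries.term (cf η) s) (∑' x, logTerm ℚ N η s x) := fun η s hs =>
    (hasSum_cf η).mpr (logTerm_summable η hs).hasSum
  have habs : ∀ η : (N ≃ₐ[ℚ] N) → ℂ, abscissaOfAbsConv (cf η) < ⊤ := by
    intro η
    have h1 : LSeriesSummable (cf η) 2 := (hs η 2 (by norm_num)).summable
    exact lt_of_le_of_lt h1.abscissaOfAbsConv_le (EReal.coe_lt_top _)
  have h2 : (fun x : ℝ ↦ LSeries (cf θ) x) =ᶠ[atTop] fun x ↦ LSeries (cf θ') x := by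
    filter_upwards [eventually_gt_atTop 1, h] with x hx hx2
    have hx' : 1 < (x : ℂ).re := by rwa [Complex.ofReal_re]
    rw [LSeries, LSeries, (hs θ x hx').tsum_eq, (hs θ' x hx').tsum_eq]
    exact hx2
  have h3 : ∀ x : HeightOneSpectrum (𝓞 ℚ) × ℕ+, frobMean ℚ N θ x.1.asIdeal x.2
      = frobMean ℚ N θ' x.1.asIdeal x.2 := by
    intro x
    have h4 := LSeries.eq_of_LSeries_eventually_eq (habs θ) (habs θ') h2 (ix_ne x)
    rw [cf, cf, ix_inj.extend_apply, ix_inj.extend_apply] at h4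
    have h5 : ((x.2 : ℕ) : ℂ) ≠ 0 := by exact_mod_cast x.2.ne_zero
    exact (div_left_inj' h5).mp h4
  funext g₀
  obtain ⟨p, hp⟩ := frob_one g₀
  have h4 := h3 (p, 1)
  change frobMean ℚ N θ p.asIdeal 1 = frobMean ℚ N θ' p.asIdeal 1 at h4
  rw [hp θ hθ, hp θ' hθ'] at h4
  have hpp : p.asIdeal.IsPrime := p.isPrime
  have h5 : (p.asIdeal.ramificationIdxIn (𝓞 N) : ℂ) ≠ 0 := by
    exact_mod_cast ram_ne (K := ℚ)
  exact (div_left_inj' h5).mp h4

end

end Pool.Agent.W2helper1.SI
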