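import Mathlib
import Pool.Agent.K4H34.AL.Comb
import Pool.Agent.W2helper1.SI.Freq
import Pool.Agent.W2helper1.SI.Emb

/-!
# All the multiplicative relations between Artin L-functions are formal
-/

set_option autoImplicit false
set_option linter.unusedSectionVars false

namespace Pool.Agent.W2helper1.SI

open NumberField Pool.Agent.K4H74 Pool.Agent.K4H74.ST Pool.Agent.K4H74.SK Pool.Agent.K4H34.AL

/-- passing to a Galois extension of `ℚ` -/
lemma exists_over (E : Ext) {χ : G E → ℂ} (hχ : IsChar χ) (N : Type) [Field N] [NumberField N]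
    [IsGalois ℚ N] (j : E.L →+* N) :
    ∃ θ : (N ≃ₐ[ℚ] N) → ℂ, IsChar θ ∧
      ∀ (M : Type) [CommGroup M] (A : ArtinInvariant M), A.val ℚ N θ = A.val E.K E.L χ := by
  let _ : Algebra E.L N := j.toAlgebra
  let _ : Algebra E.K N := ((algebraMap E.L N).comp (algebraMap E.K E.L)).toAlgebra
  have htow : IsScalarTower E.K E.L N := IsScalarTower.of_algebraMap_eq fun x => rfl
  have htow2 : IsScalarTower ℚ E.K N := inferInstance
  have hgal : IsGalois E.K N := IsGalois.tower_top_of_isGalois ℚ E.K N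
  have hc : IsChar (fun g : N ≃ₐ[E.K] N => χ (AlgEquiv.restrictNormalHom E.L g)) := hχ.comp _
  refine ⟨indChar ℚ E.K N (fun g => χ (AlgEquiv.restrictNormalHom E.L g)),
    Pool.Agent.K4H74.SC.isChar_indChar hc, fun M _ A => ?_⟩
  rw [A.val_ind ℚ E.K N _ hc]
  exact A.val_infl E.K E.L N χ hχ

/-- a common Galois extension of `ℚ` -/
lemma exists_common {r : ℕ} (x : Fin r → Pair) :
    ∃ (N : Type) (_ : Field N) (_ : NumberField N) (_ : IsGalois ℚ N),
      ∀ i, Nonempty ((x i).1.L →+* N) := by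
  have h1 : ∀ i, Nonempty ((x i).1.L →+* Om) := fun i => inferInstance
  let ε : ∀ i, (x i).1.L →+* Om := fun i => (h1 i).some
  have hfin : ∀ i, FiniteDimensional ℚ (ε i).toRatAlgHom.fieldRange := fun i =>
    Module.Finite.equiv (AlgEquiv.ofInjectiveField (ε i).toRatAlgHom).toLinearEquiv
  let F : IntermediateField ℚ Om := ⨆ i, (ε i).toRatAlgHom.fieldRange
  have hF : FiniteDimensional ℚ F := IntermediateField.finiteDimensional_iSup_of_finite
  let N : IntermediateField ℚ Om := IntermediateField.normalClosure ℚ F Om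
  have hNfin : FiniteDimensional ℚ N := inferInstance
  have hNn : NumberField N := { to_charZero := inferInstance, to_finiteDimensional := hNfin }
  have hN1 : Normal ℚ N := normalClosure.normal (F := ℚ) (K := F) (L := Om)
  have hN : IsGalois ℚ N := ⟨⟩
  have hle : F ≤ N := IntermediateField.le_normalClosure F
  refine ⟨N, inferInstance, hNn, hN, fun i => ⟨(ε i).codRestrict N fun y => hle ?_⟩⟩
  have h2 : (ε i).toRatAlgHom.fieldRange ≤ F := le_iSup (fun i => (ε i).toRatAlgHom.fieldRange) i
  exact h2 ⟨y, rfl⟩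

section sums

variable {N : Type} [Field N] [NumberField N] [IsGalois ℚ N]

lemma IsChar.nsmul {G : Type} [Group G] {χ : G → ℂ} (h : IsChar χ) (n : ℕ) :
    IsChar (n • χ) := by
  induction n with
  | zero =>
    rw [zero_smul]
    exact IsChar.zero
  | succ n ih =>
    rw [succ_nsmul]
    exact ih.add h

lemma IsChar.sum {G : Type} [Group G] {ι : Type} (s : Finset ι) {χ : ι → G → ℂ}
    (h : ∀ i, IsChar (χ i)) : IsChar (∑ i ∈ s, χ i) := by
  classical
  induction s using Finset.induction_on with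
  | empty =>
    rw [Finset.sum_empty]
    exact IsChar.zero
  | insert a s ha ih =>
    rw [Finset.sum_insert ha]
    exact (h a).add ih

lemma val_nsmul {M : Type} [CommGroup M] (A : ArtinInvariant M) {χ : (N ≃ₐ[ℚ] N) → ℂ}
    (h : IsChar χ) (n : ℕ) : A.val ℚ N (n • χ) = A.val ℚ N χ ^ n := by
  induction n with
  | zero =>
    rw [zero_smul, pow_zero]
    exact val_zero A ℚ N
  | succ n ih =>
    rw [succ_nsmul, A.val_add ℚ N _ _ (IsChar.nsmul h n) h, ih, pow_succ]

lemma val_sum {M : Type} [CommGroup M] (A : ArtinInvariant M) {ι : Type} (s : Finset ι)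
    {χ : ι → (N ≃ₐ[ℚ] N) → ℂ} (h : ∀ i, IsChar (χ i)) :
    A.val ℚ N (∑ i ∈ s, χ i) = ∏ i ∈ s, A.val ℚ N (χ i) := by
  classical
  induction s using Finset.induction_on with
  | empty =>
    rw [Finset.sum_empty, Finset.prod_empty]
    exact val_zero A ℚ N
  | insert a s ha ih =>
    rw [Finset.sum_insert ha, Finset.prod_insert ha, A.val_add ℚ N _ _ (h a) (IsChar.sum s h), ih]

end sums

/-- **All the multiplicative relations between Artin L-functions are formal.** -/
theorem rel {r : ℕ} (x : Fin r → Pair) (k : Fin r → ℤ) (hx : ∀ i, IsChar (x i).2)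
    (h : ∀ s : {s : ℂ // 1 < s.re},
      Complex.exp (∑ i, k i * Multiplicative.toAdd (pval logInv (x i)) s) = 1)
    {M : Type} [CommGroup M] (A : ArtinInvariant M) : ∏ i, pval A (x i) ^ k i = 1 := by
  classical
  obtain ⟨N, i1, i2, i3, hN⟩ := exists_common x
  have h1 := fun i => exists_over (x i).1 (hx i) N (hN i).some
  choose θ hθ hA using h1
  let P : (N ≃ₐ[ℚ] N) → ℂ := ∑ i, (k i).toNat • θ i
  let Q : (N ≃ₐ[ℚ] N) → ℂ := ∑ i, (-(k i)).toNat • θ i
  have hP : IsChar P := IsChar.sum _ fun i => IsChar.nsmul (hθ i) _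
  have hQ : IsChar Q := IsChar.sum _ fun i => IsChar.nsmul (hθ i) _
  have hval : ∀ (M' : Type) [CommGroup M'] (B : ArtinInvariant M'),
      B.val ℚ N P / B.val ℚ N Q = ∏ i, pval B (x i) ^ k i := by
    intro M' _ B
    rw [val_sum B _ fun i => IsChar.nsmul (hθ i) _, val_sum B _ fun i => IsChar.nsmul (hθ i) _,
      ← Finset.prod_div_distrib]
    refine Finset.prod_congr rfl fun i _ => ?_
    rw [val_nsmul B (hθ i), val_nsmul B (hθ i), hA i M' B]
    change pval B (x i) ^ _ / pval B (x i) ^ _ = _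
    rw [div_eq_mul_inv, ← zpow_natCast, ← zpow_natCast, ← zpow_sub]
    congr 1
    omega
  have h2 : ∀ (t : ℝ) (ht : 1 < t), ∑' y, SC.logTerm ℚ N P t y - ∑' y, SC.logTerm ℚ N Q t y
      = ∑ i, k i * Multiplicative.toAdd (pval logInv (x i))
        ⟨t, by rw [Complex.ofReal_re]; exact ht⟩ := by
    intro t ht
    have h3 := congrArg (fun y : Multiplicative ({s : ℂ // 1 < s.re} → ℂ) =>
      Multiplicative.toAdd y (⟨t, by rwa [Complex.ofReal_re]⟩ : {s : ℂ // 1 < s.re}))
      (hval _ logInv)
    simp only [toAdd_div, toAdd_prod, toAdd_zpow, Pi.sub_apply, Finset.sum_apply,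
      Pi.smul_apply, zsmul_eq_mul] at h3
    exact h3
  have h3 : Filter.Tendsto (fun t : ℝ => ∑' y, SC.logTerm ℚ N P t y - ∑' y, SC.logTerm ℚ N Q t y)
      Filter.atTop (nhds 0) := by
    have := (tendsto_log P).sub (tendsto_log Q)
    rwa [sub_zero] at this
  have h4 : P = Q := by
    refine eq_of_log P Q (Pool.Agent.K4H74.SC.isChar_class hP)
      (Pool.Agent.K4H74.SC.isChar_class hQ) ?_
    have h5 := h3.eventually (Metric.ball_mem_nhds (0 : ℂ) one_pos)
    filter_upwards [h5, Filter.eventually_gt_atTop 1] with t ht1 ht2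
    have h6 := h ⟨t, by rwa [Complex.ofReal_re]⟩
    rw [← h2 t ht2, Complex.exp_eq_one_iff] at h6
    obtain ⟨n, hn⟩ := h6
    have h7 : n = 0 := by
      by_contra hn0
      rw [hn, dist_zero_right, norm_mul, norm_mul, norm_mul, Complex.norm_I,
        Complex.norm_real, Complex.norm_intCast, Complex.norm_ofNat, mul_one] at ht1
      have h8 : (1 : ℝ) ≤ |(n : ℝ)| := by
        have := Int.one_le_abs hn0
        exact_mod_cast this
      have h9 : (3 : ℝ) < ‖Real.pi‖ := by
        rw [Real.norm_of_nonneg Real.pi_pos.le]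
        exact Real.pi_gt_three
      nlinarith [abs_nonneg (n : ℝ)]
    rw [h7, Int.cast_zero, zero_mul] at hn
    exact sub_eq_zero.mp hn
  rw [← hval M A, h4, div_self']

end Pool.Agent.W2helper1.SI
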