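import Mathlib
import Pool.Agent.W2helper1.SI.Emb

/-!
# A real field of algebraic numbers of odd degree which has no extension of odd degree
-/

set_option autoImplicit false
set_option linter.unusedSectionVars false

namespace Pool.Agent.W2helper1.SI

open Polynomial IntermediateField Module

/-- a real polynomial of odd degree has a real root -/
lemma odd_root {p : ℝ[X]} (hm : p.Monic) (ho : Odd p.natDegree) : ∃ x, p.eval x = 0 := by
  have hd : 0 < p.degree := by
    rw [← natDegree_pos_iff_degree_pos]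
    exact ho.pos
  have h1 := tendsto_atTop_of_leadingCoeff_nonneg p hd (by rw [hm.leadingCoeff]; norm_num)
  let q : ℝ[X] := - p.comp (-X)
  have hqn : (p.comp (-X)).natDegree = p.natDegree := by
    rw [natDegree_comp, natDegree_neg, natDegree_X, mul_one]
  have hql : (p.comp (-X)).leadingCoeff = -1 := by
    rw [leadingCoeff_comp (by rw [natDegree_neg, natDegree_X]; exact one_ne_zero), hm.leadingCoeff,
      leadingCoeff_neg, leadingCoeff_X, one_mul, ho.neg_one_pow]
  have h2 := tendsto_atTop_of_leadingCoeff_nonneg q (by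
    rw [degree_neg, ← natDegree_pos_iff_degree_pos, hqn]
    exact ho.pos) (by
    rw [leadingCoeff_neg, hql]
    norm_num)
  obtain ⟨x, hx⟩ := (h1.eventually_ge_atTop 0).exists
  obtain ⟨y, hy⟩ := (h2.eventually_ge_atTop 0).exists
  have hy' : p.eval (-y) ≤ 0 := by
    simp only [q, eval_neg, eval_comp, eval_X] at hy
    linarith
  obtain ⟨z, hz⟩ := mem_range_of_exists_le_of_exists_ge p.continuous ⟨-y, hy'⟩ ⟨x, hx⟩
  exact ⟨z, hz⟩

variable (ι : Om →+* ℂ)

lemma isInt (M : IntermediateField ℚ Om) (x : Om) : IsIntegral M x :=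
  (Algebra.IsIntegral.isIntegral (R := ℚ) x).tower_top

/-- a real conjugate -/
lemma real_conj {M : IntermediateField ℚ Om} (hr : ∀ m ∈ M, (ι m).im = 0) {x : Om}
    (ho : Odd (minpoly M x).natDegree) :
    ∃ y, minpoly M x = minpoly M y ∧ (ι y).im = 0 := by
  have hre : ∀ m : M, (((ι m).re : ℝ) : ℂ) = ι m := fun m =>
    Complex.ext rfl (by rw [Complex.ofReal_im, hr m m.2])
  let j : M →+* ℝ :=
    { toFun := fun m => (ι m).re
      map_one' := by simp
      map_mul' := fun a b => by
        change (ι ((a : Om) * b)).re = _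
        rw [map_mul, Complex.mul_re, hr a a.2, zero_mul, sub_zero]
      map_zero' := by simp
      map_add' := fun a b => by
        change (ι ((a : Om) + b)).re = _
        rw [map_add, Complex.add_re] }
  have hj : Complex.ofRealHom.comp j = ι.comp (algebraMap M Om) := by
    ext m
    exact hre m
  have hmon := minpoly.monic (isInt M x)
  obtain ⟨r, hr0⟩ := odd_root (hmon.map j) (by rwa [hmon.natDegree_map])
  have h1 : (((minpoly M x).map (algebraMap M Om)).map ι).IsRoot (r : ℂ) := by
    rw [Polynomial.map_map, ← hj, ← Polynomial.map_map, IsRoot.def]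
    change eval (Complex.ofRealHom r) _ = 0
    rw [eval_map_apply, hr0, map_zero]
  have h2 : (minpoly M x).map (algebraMap M Om) ≠ 0 := (hmon.map _).ne_zero
  obtain ⟨y, hy⟩ := (IsAlgClosed.splits ((minpoly M x).map (algebraMap M Om))).mem_range_of_isRoot
    h2 h1
  refine ⟨y, ?_, by rw [hy, Complex.ofReal_im]⟩
  refine minpoly.eq_of_irreducible_of_monic (minpoly.irreducible (isInt M x)) ?_ hmon
  rw [← hy, IsRoot.def, eval_map_apply] at h1
  rw [← eval_map_algebraMap]
  exact (map_eq_zero ι).mp h1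

/-- the reals in `Om` -/
noncomputable def R0 : IntermediateField ℚ Om :=
  { Subfield.comap ι Complex.ofRealHom.fieldRange with
    algebraMap_mem' := fun q => ⟨(q : ℝ), by simp⟩ }

lemma mem_R0 {x : Om} : x ∈ R0 ι ↔ (ι x).im = 0 := by
  constructor
  · rintro ⟨r, hr⟩
    change Complex.ofRealHom r = ι x at hr
    rw [← hr]
    exact Complex.ofReal_im r
  · intro h
    exact ⟨(ι x).re, Complex.ext rfl (by rw [h]; exact Complex.ofReal_im _)⟩

/-- finite subextensions have odd degree -/
lemma odd_fin {M : IntermediateField ℚ Om} (ho : ∀ x ∈ M, Odd (minpoly ℚ x).natDegree)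
    (A : IntermediateField ℚ Om) (hA : A ≤ M) [FiniteDimensional ℚ A] : Odd (finrank ℚ A) := by
  obtain ⟨m, hm⟩ := Field.exists_primitive_element ℚ A
  have h1 : finrank ℚ A = (minpoly ℚ m).natDegree := by
    rw [← adjoin.finrank (Algebra.IsIntegral.isIntegral m), hm, finrank_top']
  have h2 : minpoly ℚ m = minpoly ℚ (m : Om) :=
    (minpoly.algebraMap_eq (B' := Om) (algebraMap A Om).injective m).symm
  rw [h1, h2]
  exact ho _ (hA m.2)

lemma odd_of_mem {K₀ : IntermediateField ℚ Om} (B : IntermediateField K₀ Om)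
    [FiniteDimensional K₀ B] (h : Odd (finrank ℚ K₀ * finrank K₀ B)) {z : Om} (hz : z ∈ B) :
    Odd (minpoly ℚ z).natDegree := by
  have h1 : (minpoly ℚ (⟨z, hz⟩ : B)).natDegree ∣ finrank ℚ B :=
    minpoly.degree_dvd (by
      rw [← isIntegral_algebraMap_iff (algebraMap B Om).injective]
      exact Algebra.IsIntegral.isIntegral _)
  rw [finrank_mul_finrank] at h
  have h2 : minpoly ℚ (⟨z, hz⟩ : B) = minpoly ℚ z :=
    (minpoly.algebraMap_eq (B' := Om) (algebraMap B Om).injective _).symm
  rw [h2] at h1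
  exact Odd.of_dvd_nat h h1

/-- an extension of odd degree of a field of numbers of odd degree -/
lemma odd_tower {M : IntermediateField ℚ Om} (ho : ∀ x ∈ M, Odd (minpoly ℚ x).natDegree) {y : Om}
    (hy : Odd (minpoly M y).natDegree) {z : Om} (hz : z ∈ adjoin ℚ ((M : Set Om) ∪ {y})) :
    Odd (minpoly ℚ z).natDegree := by
  classical
  obtain ⟨T, hT, hzT⟩ := exists_finset_of_mem_adjoin hz
  let p₀ := minpoly M y
  let S : Finset Om := (T.erase y) ∪ (p₀.support.image fun n => (p₀.coeff n : Om))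
  let K₀ : IntermediateField ℚ Om := adjoin ℚ (S : Set Om)
  have hfin : FiniteDimensional ℚ K₀ := finiteDimensional_adjoin fun x _ =>
    Algebra.IsIntegral.isIntegral x
  have hSM : (S : Set Om) ⊆ M := by
    intro x hx
    rw [Finset.mem_coe, Finset.mem_union] at hx
    rcases hx with hx | hx
    · rw [Finset.mem_erase] at hx
      rcases hT (Finset.mem_coe.mpr hx.2) with h | h
      · exact h
      · exact absurd h hx.1
    · obtain ⟨n, -, rfl⟩ := Finset.mem_image.mp hx
      exact (p₀.coeff n).2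
  have hKM : K₀ ≤ M := adjoin_le_iff.mpr hSM
  have h1 : Odd (finrank ℚ K₀) := odd_fin ho K₀ hKM
  let i : K₀ →+* M := (inclusion hKM).toRingHom
  obtain ⟨P, hP⟩ : p₀ ∈ Set.range (Polynomial.map i) := by
    rw [← lifts_iff_set_range, lifts_iff_coeff_lifts]
    intro n
    by_cases hn : n ∈ p₀.support
    · have h2 : (p₀.coeff n : Om) ∈ K₀ := by
        apply subset_adjoin
        rw [Finset.mem_coe, Finset.mem_union]
        exact Or.inr (Finset.mem_image_of_mem _ hn)
      exact ⟨⟨_, h2⟩, Subtype.ext rfl⟩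
    · rw [Polynomial.notMem_support_iff] at hn
      exact ⟨0, by rw [hn, map_zero]⟩
  have hmon : p₀.Monic := minpoly.monic (isInt M y)
  have hPm : P.Monic := by
    rw [← hP] at hmon
    exact monic_of_injective i.injective hmon
  have hPi : Irreducible P := by
    have h2 := minpoly.irreducible (isInt M y)
    change Irreducible p₀ at h2
    rw [← hP] at h2
    exact hPm.irreducible_of_irreducible_map i P h2
  have hPy : aeval y P = 0 := by
    have h2 : aeval y p₀ = 0 := minpoly.aeval M y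
    rw [← hP, aeval_def, eval₂_map] at h2
    exact h2
  have hPmin : P = minpoly K₀ y := minpoly.eq_of_irreducible_of_monic hPi hPy hPm
  have hdeg : Odd (minpoly K₀ y).natDegree := by
    rw [← hPmin, ← natDegree_map i, hP]
    exact hy
  have hint : IsIntegral K₀ y := isInt K₀ y
  have hfin2 : FiniteDimensional K₀ K₀⟮y⟯ := adjoin.finiteDimensional hint
  refine odd_of_mem K₀⟮y⟯ ?_ ?_
  · rw [adjoin.finrank hint]
    exact h1.mul hdeg
  · have h2 : adjoin ℚ (T : Set Om) ≤ K₀⟮y⟯.restrictScalars ℚ := by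
      rw [adjoin_le_iff]
      intro x hx
      by_cases hxy : x = y
      · rw [hxy]
        exact mem_adjoin_simple_self K₀ y
      · have h3 : x ∈ K₀ := subset_adjoin _ _ (by
          rw [Finset.mem_coe, Finset.mem_union, Finset.mem_erase]
          exact Or.inl ⟨hxy, hx⟩)
        exact K₀⟮y⟯.algebraMap_mem ⟨x, h3⟩
    exact h2 hzT

/-- **The maximal fields.** -/
theorem exists_max (N₀ : IntermediateField ℚ Om) (h₁ : ∀ x ∈ N₀, (ι x).im = 0)
    (h₂ : ∀ x ∈ N₀, Odd (minpoly ℚ x).natDegree) :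
    ∃ M : IntermediateField ℚ Om, N₀ ≤ M ∧ (∀ x ∈ M, (ι x).im = 0) ∧
      (∀ x ∈ M, Odd (minpoly ℚ x).natDegree) ∧
      ∀ x : Om, Odd (minpoly M x).natDegree → x ∈ M := by
  let s : Set (IntermediateField ℚ Om) :=
    {M | (∀ x ∈ M, (ι x).im = 0) ∧ ∀ x ∈ M, Odd (minpoly ℚ x).natDegree}
  obtain ⟨M, hNM, hM, hmax⟩ := zorn_le_nonempty₀ s (by
    intro c hc hch y hy
    refine ⟨sSup c, ?_, fun z hz => le_sSup hz⟩
    have hne : Nonempty c := ⟨⟨y, hy⟩⟩
    have hmem : ∀ x, x ∈ sSup c → ∃ M ∈ c, x ∈ M := by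
      intro x hx
      rw [sSup_eq_iSup'] at hx
      have h3 := coe_iSup_of_directed (t := fun M : c => (M : IntermediateField ℚ Om))
        hch.directedOn.directed_val
      rw [← SetLike.mem_coe, h3, Set.mem_iUnion] at hx
      obtain ⟨M, hM⟩ := hx
      exact ⟨M, M.2, hM⟩
    constructor
    · intro x hx
      obtain ⟨M, hM, hxM⟩ := hmem x hx
      exact (hc hM).1 x hxM
    · intro x hx
      obtain ⟨M, hM, hxM⟩ := hmem x hx
      exact (hc hM).2 x hxM) N₀ ⟨h₁, h₂⟩
  refine ⟨M, hNM, hM.1, hM.2, fun x hx => ?_⟩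
  obtain ⟨y, hxy, hy⟩ := real_conj ι hM.1 hx
  rw [hxy] at hx
  let N := adjoin ℚ ((M : Set Om) ∪ {y})
  have hN : N ∈ s := by
    constructor
    · intro z hz
      rw [← mem_R0]
      refine (adjoin_le_iff.mpr ?_) hz
      rintro w (hw | hw)
      · exact (mem_R0 ι).mpr (hM.1 w hw)
      · rw [Set.mem_singleton_iff] at hw
        rw [hw]
        exact (mem_R0 ι).mpr hy
    · intro z hz
      exact odd_tower hM.2 hx hz
  have hMN : M ≤ N := fun w hw => subset_adjoin ℚ _ (Or.inl hw)
  have h3 : N ≤ M := hmax hN hMN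
  have hyM : y ∈ M := h3 (subset_adjoin ℚ _ (Or.inr rfl))
  have h4 : minpoly M y = X - C (⟨y, hyM⟩ : M) := minpoly.eq_X_sub_C Om (⟨y, hyM⟩ : M)
  have h5 : aeval x (minpoly M x) = 0 := minpoly.aeval M x
  rw [hxy, h4, map_sub, aeval_X, aeval_C, sub_eq_zero] at h5
  rw [h5]
  exact hyM

end Pool.Agent.W2helper1.SI
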