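import Mathlib
import Pool.Agent.W2helper1.SI.Odd

/-!
# Arithmetic of the field generated by the cube root of `2`
-/

set_option autoImplicit false
set_option linter.unusedSectionVars false

namespace Pool.Agent.W2helper1.SI

open Polynomial IntermediateField Module

/-- `X⁴ + 6 X³ + 12 X² + 14 X + 6` -/
noncomputable def gZ : ℤ[X] := X ^ 4 + (C 6 * X ^ 3 + C 12 * X ^ 2 + C 14 * X + C 6)

lemma gZ_deg : gZ.natDegree = 4 := by
  unfold gZ
  compute_degree!

lemma gZ_monic : gZ.Monic := by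
  unfold gZ
  monicity!

lemma gZ_irr : Irreducible gZ := by
  have hp : (Ideal.span {(2 : ℤ)}).IsPrime := by
    rw [Ideal.span_singleton_prime (by norm_num)]
    exact Int.prime_two
  refine irreducible_of_eisenstein_criterion hp ?_ ?_ ?_ ?_ gZ_monic.isPrimitive
  · rw [gZ_monic.leadingCoeff, Ideal.mem_span_singleton]
    norm_num
  · intro n hn
    rw [degree_eq_natDegree gZ_monic.ne_zero, gZ_deg] at hn
    have hn' : n < 4 := by exact_mod_cast hn
    rw [Ideal.mem_span_singleton]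
    unfold gZ
    interval_cases n <;> simp [coeff_X, coeff_C] <;> norm_num
  · rw [degree_eq_natDegree gZ_monic.ne_zero, gZ_deg]
    norm_num
  · rw [Ideal.span_singleton_pow, Ideal.mem_span_singleton]
    unfold gZ
    simp [coeff_X, coeff_C]

lemma no_quartic {w : Om} (hodd : Odd (minpoly ℚ w).natDegree)
    (h : w ^ 4 + 6 * w ^ 3 + 12 * w ^ 2 + 14 * w + 6 = 0) : False := by
  let g : ℚ[X] := gZ.map (Int.castRingHom ℚ)
  have h1 : Irreducible g := (IsPrimitive.Int.irreducible_iff_irreducible_map_cast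
    gZ_monic.isPrimitive).mp gZ_irr
  have h2 : g.Monic := gZ_monic.map _
  have h3 : aeval w g = 0 := by
    rw [aeval_def, eval₂_map]
    unfold gZ
    simp
    linear_combination h
  have h4 : g = minpoly ℚ w := minpoly.eq_of_irreducible_of_monic h1 h3 h2
  rw [← h4, gZ_monic.natDegree_map, gZ_deg] at hodd
  exact absurd hodd (by decide)

section

variable {M : IntermediateField ℚ Om} (ho : ∀ x ∈ M, Odd (minpoly ℚ x).natDegree)

include ho in
/-- elements of degree `2` -/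
lemma sq_mem (A : IntermediateField ℚ Om) (hA : A ≤ M) [FiniteDimensional ℚ A] {z : Om}
    (hz : z ∈ M) (hz2 : z ^ 2 ∈ A) : z ∈ A := by
  have hint : IsIntegral A z := isInt A z
  have : FiniteDimensional A A⟮z⟯ := adjoin.finiteDimensional hint
  have h1 : (minpoly A z).natDegree ≤ 2 := by
    have h2 : aeval z (X ^ 2 - C (⟨z ^ 2, hz2⟩ : A)) = 0 := by
      rw [map_sub, map_pow, aeval_X, aeval_C]
      exact sub_self _
    have h3 : (X ^ 2 - C (⟨z ^ 2, hz2⟩ : A)).natDegree = 2 := natDegree_X_pow_sub_C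
    have h4 : (X ^ 2 - C (⟨z ^ 2, hz2⟩ : A)) ≠ 0 := by
      intro h
      rw [h] at h3
      simp at h3
    rw [← h3]
    exact natDegree_le_of_dvd (minpoly.dvd A z h2) h4
  have h2 : Odd (minpoly A z).natDegree := by
    have hfin : FiniteDimensional ℚ (A⟮z⟯.restrictScalars ℚ) :=
      FiniteDimensional.trans ℚ A A⟮z⟯
    have h3 : A⟮z⟯.restrictScalars ℚ ≤ M := by
      intro x hx
      have h6 : A⟮z⟯ ≤ extendScalars hA := adjoin_simple_le_iff.mpr hz
      exact h6 hx
    have h4 := odd_fin ho _ h3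
    have h5 : finrank ℚ (A⟮z⟯.restrictScalars ℚ) = finrank ℚ A * finrank A A⟮z⟯ :=
      (finrank_mul_finrank ℚ A A⟮z⟯).symm
    rw [h5, adjoin.finrank hint] at h4
    exact (Nat.odd_mul.mp h4).2
  have h3 : (minpoly A z).natDegree = 1 := by
    obtain ⟨k, hk⟩ := h2
    omega
  rw [minpoly.natDegree_eq_one_iff] at h3
  obtain ⟨y, hy⟩ := h3
  rw [← hy]
  exact y.2

variable (ι : Om →+* ℂ) (hr : ∀ x ∈ M, (ι x).im = 0)

include hr in
/-- real cube roots are unique -/
lemma cube_unique {a b : Om} (ha : a ∈ M) (hb : b ∈ M) (h : a ^ 3 = b ^ 3) : a = b := by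
  apply ι.injective
  have h1 : ∀ x ∈ M, ι x = (((ι x).re : ℝ) : ℂ) := fun x hx =>
    Complex.ext rfl (by rw [Complex.ofReal_im, hr x hx])
  rw [h1 a ha, h1 b hb]
  congr 1
  have h2 : (ι a) ^ 3 = (ι b) ^ 3 := by rw [← map_pow, ← map_pow, h]
  rw [h1 a ha, h1 b hb] at h2
  have h3 : (ι a).re ^ 3 = (ι b).re ^ 3 := by exact_mod_cast h2
  exact (Odd.strictMono_pow (by decide : Odd 3)).injective h3

include ho hr in
/-- **The key lemma.** -/
theorem key_cube {a : Om} (ha : a ∈ M) (ha3 : a ^ 3 = 2) (F₁ : IntermediateField ℚ Om)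
    (hF : F₁ ≤ M) [FiniteDimensional ℚ F₁] (haF : a ∉ F₁) {z d : Om} (hz : z ∈ M) (hd : d ∈ F₁)
    (hd0 : d ≠ 0) (h : z ^ 2 = (1 + a ^ 2) * d) : False := by
  have hirr : Irreducible (X ^ 3 - C (2 : F₁)) := by
    refine X_pow_sub_C_irreducible_of_prime Nat.prime_three fun b hb => haF ?_
    have h1 : (b : Om) ^ 3 = a ^ 3 := by
      rw [ha3]
      have := congrArg (algebraMap F₁ Om) hb
      rw [map_pow, map_ofNat] at this
      exact this
    rw [← cube_unique ι hr (hF b.2) ha h1]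
    exact b.2
  have hmon : (X ^ 3 - C (2 : F₁)).Monic := monic_X_pow_sub_C _ (by norm_num)
  have hmin : (X ^ 3 - C (2 : F₁)) = minpoly F₁ a := by
    refine minpoly.eq_of_irreducible_of_monic hirr ?_ hmon
    rw [map_sub, map_pow, aeval_X, aeval_C, map_ofNat, ha3, sub_self]
  have hind : ∀ u₀ u₁ u₂ : F₁, (u₀ : Om) + u₁ * a + u₂ * a ^ 2 = 0 → u₀ = 0 ∧ u₁ = 0 ∧ u₂ = 0 := by
    intro u₀ u₁ u₂ hu
    let Q : F₁[X] := C u₂ * X ^ 2 + C u₁ * X + C u₀
    have h1 : aeval a Q = 0 := by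
      change aeval a (C u₂ * X ^ 2 + C u₁ * X + C u₀) = 0
      rw [map_add, map_add, map_mul, map_mul, map_pow, aeval_X, aeval_C, aeval_C, aeval_C]
      change (u₂ : Om) * a ^ 2 + u₁ * a + u₀ = 0
      linear_combination hu
    have h2 : Q = 0 := by
      refine eq_zero_of_dvd_of_natDegree_lt (minpoly.dvd F₁ a h1) ?_
      rw [← hmin, natDegree_X_pow_sub_C]
      exact lt_of_le_of_lt natDegree_quadratic_le (by norm_num)
    have h3 : Q.coeff 0 = u₀ := by simp [Q]
    have h4 : Q.coeff 1 = u₁ := by simp [Q, coeff_X, coeff_C]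
    have h5 : Q.coeff 2 = u₂ := by simp [Q, coeff_X, coeff_C]
    rw [h2, coeff_zero] at h3 h4 h5
    exact ⟨h3.symm, h4.symm, h5.symm⟩
  have hint : IsIntegral F₁ a := isInt F₁ a
  have hfin1 : FiniteDimensional F₁ F₁⟮a⟯ := adjoin.finiteDimensional hint
  have hfin2 : FiniteDimensional ℚ (F₁⟮a⟯.restrictScalars ℚ) := FiniteDimensional.trans ℚ F₁ F₁⟮a⟯
  have hle : F₁⟮a⟯.restrictScalars ℚ ≤ M := by
    intro x hx
    have h6 : F₁⟮a⟯ ≤ extendScalars hF := adjoin_simple_le_iff.mpr ha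
    exact h6 hx
  have c2 : ((2 : F₁) : Om) = 2 := map_ofNat (algebraMap F₁ Om) 2
  have c4 : ((4 : F₁) : Om) = 4 := map_ofNat (algebraMap F₁ Om) 4
  have haA : a ∈ F₁⟮a⟯ := mem_adjoin_simple_self F₁ a
  have hzA : z ∈ F₁⟮a⟯ := by
    refine sq_mem ho (F₁⟮a⟯.restrictScalars ℚ) hle hz ?_
    rw [h]
    change (1 + a ^ 2) * d ∈ F₁⟮a⟯
    exact mul_mem (add_mem (one_mem _) (pow_mem haA 2)) (F₁⟮a⟯.algebraMap_mem ⟨d, hd⟩)
  obtain ⟨Q, hQ⟩ : ∃ Q : F₁[X], aeval a Q = z := by
    have h1 : z ∈ F₁⟮a⟯.toSubalgebra := hzA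
    rw [adjoin_simple_toSubalgebra_of_isAlgebraic hint.isAlgebraic,
      Algebra.adjoin_singleton_eq_range_aeval] at h1
    exact h1
  obtain ⟨p, q, t, hz'⟩ : ∃ p q t : F₁, z = p + q * a + t * a ^ 2 := by
    let R := Q %ₘ (X ^ 3 - C (2 : F₁))
    have h1 : aeval a R = z := by
      have h2 := modByMonic_add_div Q (X ^ 3 - C (2 : F₁))
      have h3 := congrArg (aeval a) h2
      rw [map_add, map_mul, hQ] at h3
      rw [← h3]
      have h4 : aeval a (X ^ 3 - C (2 : F₁)) = 0 := by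
        rw [hmin]
        exact minpoly.aeval F₁ a
      rw [h4, zero_mul, add_zero]
    have h2 : R.natDegree < 3 := by
      have h3 := natDegree_modByMonic_lt Q hmon (by
        intro h4
        have h5 := congrArg natDegree h4
        rw [natDegree_X_pow_sub_C] at h5
        simp at h5)
      rwa [natDegree_X_pow_sub_C] at h3
    refine ⟨R.coeff 0, R.coeff 1, R.coeff 2, ?_⟩
    rw [← h1, aeval_eq_sum_range' h2, Finset.sum_range_succ, Finset.sum_range_succ,
      Finset.sum_range_one, pow_zero, pow_one, Algebra.smul_def, Algebra.smul_def,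
      Algebra.smul_def, mul_one]
    rfl
  let d' : F₁ := ⟨d, hd⟩
  have hd' : (d' : Om) = d := rfl
  have ha4 : a ^ 4 = 2 * a := by
    calc a ^ 4 = a ^ 3 * a := by ring
      _ = 2 * a := by rw [ha3]
  obtain ⟨e₀, e₁, e₂⟩ := hind (p ^ 2 + 4 * q * t - d') (2 * p * q + 2 * t ^ 2)
    (q ^ 2 + 2 * p * t - d') (by
      push_cast
      rw [hd', c2, c4]
      rw [hz'] at h
      linear_combination h - 2 * (q : Om) * t * ha3 - (t : Om) ^ 2 * ha4)
  have hd'0 : d' ≠ 0 := fun h1 => hd0 (by rw [← hd', h1]; rfl)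
  have hq : q ≠ 0 := by
    intro hq
    rw [hq] at e₁
    have ht : t = 0 := by
      have h1 : t ^ 2 = 0 := by linear_combination e₁ / 2
      exact pow_eq_zero_iff (two_ne_zero) |>.mp h1
    apply hd'0
    rw [hq, ht] at e₂
    linear_combination - e₂
  let w : F₁ := t / q
  have ht : t = w * q := by
    change t = t / q * q
    rw [div_mul_cancel₀ t hq]
  have hp : p = - (w ^ 2 * q) := by
    have h1 : q * (p + w ^ 2 * q) = 0 := by
      rw [ht] at e₁
      linear_combination e₁ / 2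
    have h2 := (mul_eq_zero.mp h1).resolve_left hq
    linear_combination h2
  have hw : w ^ 4 + 2 * w ^ 3 + 4 * w - 1 = 0 := by
    have h1 : q ^ 2 * (w ^ 4 + 2 * w ^ 3 + 4 * w - 1) = 0 := by
      rw [hp, ht] at e₀ e₂
      linear_combination e₀ - e₂
    exact (mul_eq_zero.mp h1).resolve_left (pow_ne_zero 2 hq)
  have hwO : (w : Om) ^ 4 + 2 * (w : Om) ^ 3 + 4 * (w : Om) - 1 = 0 := by
    have h1 := congrArg (algebraMap F₁ Om) hw
    rw [map_sub, map_add, map_add, map_mul, map_mul, map_pow, map_pow, map_one, map_zero,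
      map_ofNat, map_ofNat] at h1
    exact h1
  have hwM : (w : Om) - 1 ∈ M := sub_mem (hF w.2) (one_mem M)
  refine no_quartic (ho _ hwM) ?_
  linear_combination hwO

end

end Pool.Agent.W2helper1.SI
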