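import Mathlib
import Pool.Agent.W2helper1.SI.Emb

/-!
# The inductive invariant attached to a field with a pro-`2` absolute Galois group and a sign
character of this group
-/

set_option autoImplicit false
set_option linter.unusedSectionVars false

namespace Pool.Agent.W2helper1.SI

open Pool.Agent.R389 Pool.Agent.K4H74.ST

variable (M : IntermediateField ℚ Om) (ν : (Om ≃ₐ[M] Om) →* ℂˣ)

section

variable (F E : Type) [Field F] [NumberField F] [Field E] [NumberField E] [Algebra F E]
  [IsGalois F E]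

/-- the restriction attached to an embedding in `M` -/
noncomputable def rt (τ : F →+* M) : (Om ≃ₐ[M] Om) →* (E ≃ₐ[F] E) :=
  rr M (lft E (M.val.toRingHom.comp τ)) (fun y => by
    rw [lft_spec]
    exact (τ y).2)

/-- the value of the invariant -/
noncomputable def vl (χ : (E ≃ₐ[F] E) → ℂ) : ℤˣ :=
  have := fin_ext F E
  ∏ τ : F →+* M, par (NR ν (rt M F E τ) χ)

end

lemma vl_eq (F E : Type) [Field F] [NumberField F] [Field E] [NumberField E] [Algebra F E]
    [IsGalois F E] [FiniteDimensional F E] (χ : (E ≃ₐ[F] E) → ℂ) :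
    vl M ν F E χ = ∏ τ : F →+* M, par (NR ν (rt M F E τ) χ) := rfl

lemma vl_add (K L : Type) [Field K] [NumberField K] [Field L] [NumberField L] [Algebra K L]
    [IsGalois K L] (χ χ' : (L ≃ₐ[K] L) → ℂ) (h : IsChar χ) (h' : IsChar χ') :
    vl M ν K L (χ + χ') = vl M ν K L χ * vl M ν K L χ' := by
  have := fin_ext K L
  rw [vl_eq, vl_eq, vl_eq, ← Finset.prod_mul_distrib]
  refine Finset.prod_congr rfl fun τ _ => ?_
  rw [NR_add, par_add (NR_int ν _ h) (NR_int ν _ h')]

lemma vl_infl (K L N : Type) [Field K] [NumberField K] [Field L] [NumberField L] [Field N]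
    [NumberField N] [Algebra K L] [IsGalois K L] [Algebra K N] [IsGalois K N] [Algebra L N]
    [IsScalarTower K L N] (χ : (L ≃ₐ[K] L) → ℂ) (hχ : IsChar χ) :
    vl M ν K N (fun g => χ (AlgEquiv.restrictNormalHom L g)) = vl M ν K L χ := by
  have := fin_ext K L
  have := fin_ext K N
  rw [vl_eq, vl_eq]
  refine Finset.prod_congr rfl fun τ _ => ?_
  congr 1
  refine NR_congr ν fun v => ?_
  let τ' : K →+* Om := M.val.toRingHom.comp τ
  have hτ : ∀ y, τ' y ∈ M := fun y => (τ y).2
  let ε : L →+* Om := (lft N τ').comp (algebraMap L N)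
  have hε : ∀ y : K, ε (algebraMap K L y) = τ' y := by
    intro y
    change lft N τ' (algebraMap L N (algebraMap K L y)) = _
    rw [← IsScalarTower.algebraMap_apply K L N, lft_spec]
  have hεM : ∀ y : K, ε (algebraMap K L y) ∈ M := fun y => by rw [hε]; exact hτ y
  have h1 : AlgEquiv.restrictNormalHom L (rt M K N τ v) = rr M ε hεM v := by
    ext x
    apply ε.injective
    rw [rr_spec]
    change lft N τ' (algebraMap L N (AlgEquiv.restrictNormalHom L (rt M K N τ v) x)) = _
    rw [res_apply]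
    exact rr_spec M _ _ v (algebraMap L N x)
  rw [h1]
  exact rr_conj M _ _ _ _ (fun y => by rw [hε, lft_spec]) hχ v

/-- induction -/
lemma indChar_eq (K F L : Type) [Field K] [NumberField K] [Field F] [NumberField F] [Field L]
    [NumberField L] [Algebra K F] [Algebra F L] [Algebra K L] [IsScalarTower K F L]
    [FiniteDimensional K L] (χ : (L ≃ₐ[F] L) → ℂ)
    (e : (L ≃ₐ[F] L) ≃* (AlgEquiv.restrictScalarsHom K : (L ≃ₐ[F] L) →* (L ≃ₐ[K] L)).range)
    (he : ∀ g, (e g : L ≃ₐ[K] L) = g.restrictScalars K) :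
    indChar K F L χ = ind (AlgEquiv.restrictScalarsHom K : (L ≃ₐ[F] L) →* (L ≃ₐ[K] L)).range
      (fun u => χ (e.symm u)) := by
  classical
  let U := (AlgEquiv.restrictScalarsHom K : (L ≃ₐ[F] L) →* (L ≃ₐ[K] L)).range
  have hc : Nat.card (L ≃ₐ[F] L) = Nat.card U := Nat.card_congr e.toEquiv
  funext g
  rw [ind, indChar, hc]
  congr 1
  refine finsum_congr fun x => ?_
  by_cases hx : x⁻¹ * g * x ∈ U
  · rw [ext_mem _ _ hx]
    rw [finsum_eq_single _ (e.symm ⟨_, hx⟩)]
    · rw [finsum_eq_single _ (by rw [← he, MulEquiv.apply_symm_apply])]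
      intro h1 h2
      exact absurd rfl h2
    · intro h hh
      refine @finsum_of_isEmpty _ _ _ ⟨fun h1 => ?_⟩ _
      apply hh
      apply e.injective
      rw [MulEquiv.apply_symm_apply]
      apply Subtype.ext
      rw [he, h1]
  · rw [ext_not _ _ hx]
    apply finsum_eq_zero_of_forall_eq_zero
    intro h
    refine @finsum_of_isEmpty _ _ _ ⟨fun h1 => ?_⟩ _
    apply hx
    rw [← h1]
    exact ⟨h, rfl⟩

lemma vl_ind (hM : ∀ x : Om, Odd (minpoly M x).natDegree → x ∈ M)
    (K F L : Type) [Field K] [NumberField K] [Field F] [NumberField F] [Field L]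
    [NumberField L] [Algebra K F] [Algebra F L] [Algebra K L] [IsScalarTower K F L] [IsGalois K L]
    [IsGalois F L] (χ : (L ≃ₐ[F] L) → ℂ) (hχ : IsChar χ) :
    vl M ν K L (indChar K F L χ) = vl M ν F L χ := by
  classical
  have := fin_ext K L
  have := fin_ext F L
  rw [vl_eq, vl_eq]
  let j : (L ≃ₐ[F] L) →* (L ≃ₐ[K] L) := AlgEquiv.restrictScalarsHom K
  let U := j.range
  let e : (L ≃ₐ[F] L) ≃* U := MonoidHom.ofInjective (AlgEquiv.restrictScalarsHom_injective K)
  have he : ∀ g, (e g : L ≃ₐ[K] L) = g.restrictScalars K := fun g => rfl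
  have hU : ∀ g : L ≃ₐ[K] L, g ∈ U ↔ ∀ z : F, g (algebraMap F L z) = algebraMap F L z := by
    intro g
    constructor
    · rintro ⟨h, rfl⟩ z
      exact h.commutes z
    · intro h
      exact ⟨AlgEquiv.ofRingEquiv (f := g.toRingEquiv) h, by ext x; rfl⟩
  have hes : ∀ (u : U) (z : L), (e.symm u) z = (u : L ≃ₐ[K] L) z := by
    intro u z
    have h1 := he (e.symm u)
    rw [MulEquiv.apply_symm_apply] at h1
    rw [h1]
    rfl
  rw [indChar_eq K F L χ e he]
  have hχU : IsChar (fun u : U => χ (e.symm u)) := hχ.comp e.symm.toMonoidHom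
  have hprod : ∏ τ : F →+* M, par (NR ν (rt M F L τ) χ)
      = ∏ τ : K →+* M, ∏ σ : {σ : F →+* M // σ.comp (algebraMap K F) = τ},
        par (NR ν (rt M F L σ.1) χ) :=
    (Fintype.prod_fiberwise (fun σ : F →+* M => σ.comp (algebraMap K F)) _).symm
  rw [hprod]
  refine Finset.prod_congr rfl fun τ _ => ?_
  let τ' : K →+* Om := M.val.toRingHom.comp τ
  let ε : L →+* Om := lft L τ'
  let r := rt M K L τ
  have hr : ∀ (v : Om ≃ₐ[M] Om) (z : L), ε (r v z) = v (ε z) := fun v z => rr_spec M _ _ v z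
  let ε' : (F →+* M) → L →+* Om := fun σ => lft L (M.val.toRingHom.comp σ)
  have hε' : ∀ (σ : F →+* M) (z : F), ε' σ (algebraMap F L z) = σ z := fun σ z => lft_spec _ z
  have hx : ∀ σ : {σ : F →+* M // σ.comp (algebraMap K F) = τ},
      ∃ x : L ≃ₐ[K] L, ∀ z, ε' σ.1 z = ε (x z) := by
    intro σ
    refine exists_rr ε (ε' σ.1) fun y => ?_
    rw [IsScalarTower.algebraMap_apply K F L, hε']
    change _ = lft L τ' _
    rw [← IsScalarTower.algebraMap_apply K F L, lft_spec]
    exact congrArg Subtype.val (RingHom.congr_fun σ.2 y)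
  choose x hx using hx
  have hxU : ∀ σ v, (x σ)⁻¹ * r v * x σ ∈ U := by
    intro σ v
    rw [hU]
    intro z
    have h1 : r v (x σ (algebraMap F L z)) = x σ (algebraMap F L z) := by
      apply ε.injective
      rw [hr, ← hx, hε']
      exact v.commutes _
    change (x σ)⁻¹ (r v (x σ (algebraMap F L z))) = _
    rw [h1]
    exact AlgEquiv.symm_apply_apply _ _
  have hJ : ∀ y : L ≃ₐ[K] L, (∀ v, y⁻¹ * r v * y ∈ U) → ∃! σ, (x σ)⁻¹ * y ∈ U := by
    intro y hy
    have h1 : ∀ (v : Om ≃ₐ[M] Om) (z : F), v (ε (y (algebraMap F L z)))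
        = ε (y (algebraMap F L z)) := by
      intro v z
      rw [← hr]
      congr 1
      have h2 := (hU _).mp (hy v) z
      change y⁻¹ (r v (y (algebraMap F L z))) = _ at h2
      have h3 := congrArg y h2
      have h4 : ∀ w : L, y (y⁻¹ w) = w := fun w => AlgEquiv.apply_symm_apply _ _
      rwa [h4] at h3
    have h2 : ∀ z : F, ε (y (algebraMap F L z)) ∈ M := fun z => mem_of_fixed M fun v => h1 v z
    let σ₀ : F →+* M := (ε.comp ((y : L →+* L).comp (algebraMap F L))).codRestrict M h2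
    have h3 : ∀ z : F, ((σ₀ z : M) : Om) = ε (y (algebraMap F L z)) := fun z => rfl
    have h4 : σ₀.comp (algebraMap K F) = τ := by
      ext z
      change ((σ₀ (algebraMap K F z) : M) : Om) = _
      rw [h3, ← IsScalarTower.algebraMap_apply K F L, y.commutes]
      exact lft_spec τ' z
    have h5 : ∀ σ, (x σ)⁻¹ * y ∈ U ↔ ∀ z : F, x σ (algebraMap F L z) = y (algebraMap F L z) := by
      intro σ
      rw [hU]
      refine forall_congr' fun z => ?_
      change (x σ)⁻¹ (y (algebraMap F L z)) = _ ↔ _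
      have h6 : ∀ w : L, x σ ((x σ)⁻¹ w) = w := fun w => AlgEquiv.apply_symm_apply _ _
      constructor
      · intro h
        have h7 := congrArg (x σ) h
        rw [h6] at h7
        exact h7.symm
      · intro h
        rw [← h]
        exact AlgEquiv.symm_apply_apply _ _
    refine ⟨⟨σ₀, h4⟩, ?_, ?_⟩
    · change (x _)⁻¹ * y ∈ U
      rw [h5]
      intro z
      apply ε.injective
      rw [← hx, hε', h3]
    · intro σ hσ
      change (x _)⁻¹ * y ∈ U at hσ
      rw [h5] at hσ
      apply Subtype.ext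
      ext z
      change ((σ.1 z : M) : Om) = ((σ₀ z : M) : Om)
      rw [h3, ← hσ z, ← hx, hε']
  rw [par_ind ν r (range_two M hM _ _) hχU x hxU hJ]
  refine Finset.prod_congr rfl fun σ _ => ?_
  congr 1
  refine NR_congr ν fun v => ?_
  congr 1
  ext z
  rw [hes]
  apply (ε' σ.1).injective
  have h1 : ε' σ.1 (rt M F L σ.1 v z) = v (ε' σ.1 z) := rr_spec M _ _ v z
  rw [h1, hx, hx]
  change ε (x σ ((x σ)⁻¹ (r v (x σ z)))) = _
  have h4 : ∀ w : L, x σ ((x σ)⁻¹ w) = w := fun w => AlgEquiv.apply_symm_apply _ _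
  rw [h4, hr]

/-- **The invariant.** -/
noncomputable def inva (hM : ∀ x : Om, Odd (minpoly M x).natDegree → x ∈ M) :
    ArtinInvariant ℤˣ where
  val K L _ _ _ _ _ _ χ := vl M ν K L χ
  val_add K L _ _ _ _ _ _ χ χ' h h' := vl_add M ν K L χ χ' h h'
  val_infl K L N _ _ _ _ _ _ _ _ _ _ _ _ χ hχ := vl_infl M ν K L N χ hχ
  val_ind K F L _ _ _ _ _ _ _ _ _ _ _ _ χ hχ := vl_ind M ν hM K F L χ hχ

end Pool.Agent.W2helper1.SI
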