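import Mathlib
import Pool.Agent.W2helper1.SI.Arith
import Pool.Agent.W2helper1.SI.Val

/-!
# Linear characters over the fields without a cube root of `2`
-/

set_option autoImplicit false
set_option linter.unusedSectionVars false

namespace Pool.Agent.W2helper1.SI

open Polynomial IntermediateField Module Pool.Agent.K4H74.ST

/-- the quadratic extension cut out by a sign character is generated by an eigenvector -/
lemma exists_eigen {F E : Type} [Field F] [Field E] [Algebra F E] [FiniteDimensional F E]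
    [IsGalois F E] (q : (E ≃ₐ[F] E) →* ℂˣ) (_ : Sg q) :
    ∃ x : E, x ≠ 0 ∧ ∀ g, (q g = 1 → g x = x) ∧ (q g = -1 → g x = -x) := by
  by_cases h : ∃ t, q t = -1
  · obtain ⟨t, ht⟩ := h
    have h1 : ∃ y ∈ fixedField q.ker, t y ≠ y := by
      by_contra h2
      push Not at h2
      have h3 : t ∈ (fixedField q.ker).fixingSubgroup := by
        rw [IntermediateField.mem_fixingSubgroup_iff]
        exact h2
      rw [fixingSubgroup_fixedField, MonoidHom.mem_ker, ht] at h3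
      exact neg_one_ne h3
    obtain ⟨y, hy, hty⟩ := h1
    have hyW : ∀ g, q g = 1 → g y = y := fun g hg => hy ⟨g, hg⟩
    have htyW : ∀ g, q g = 1 → g (t y) = t y := by
      intro g hg
      have h2 : (t⁻¹ * g * t) y = y := hyW _ (by
        rw [map_mul, map_mul, hg, mul_one, map_inv, inv_mul_cancel])
      have h3 := congrArg t h2
      change t (t⁻¹ (g (t y))) = t y at h3
      have h4 : ∀ w : E, t (t⁻¹ w) = w := fun w => AlgEquiv.apply_symm_apply _ _
      rwa [h4] at h3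
    have htty : t (t y) = y := hyW (t * t) (by rw [map_mul, ht]; simp)
    refine ⟨y - t y, sub_ne_zero.mpr hty.symm, fun g => ⟨fun hg => ?_, fun hg => ?_⟩⟩
    · rw [map_sub, hyW g hg, htyW g hg]
    · have h2 : q (t⁻¹ * g) = 1 := by
        rw [map_mul, map_inv, ht, hg, inv_mul_cancel]
      have h3 : ∀ w : E, g w = t ((t⁻¹ * g) w) := fun w =>
        (AlgEquiv.apply_symm_apply t (g w)).symm
      rw [h3, map_sub, hyW _ h2, htyW _ h2, map_sub, htty]
      ring
  · push Not at h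
    exact ⟨1, one_ne_zero, fun g => ⟨fun _ => map_one g, fun hg => absurd hg (h g)⟩⟩

lemma no_rat_cube (q : ℚ) : q ^ 3 ≠ 2 := by
  intro h
  have h1 := padicValRat.pow (p := 2) q (k := 3)
  rw [h] at h1
  have h2 : padicValRat 2 (2 : ℚ) = 1 := padicValRat.self (by norm_num)
  rw [h2] at h1
  omega

section

variable {M : IntermediateField ℚ Om} (ho : ∀ x ∈ M, Odd (minpoly ℚ x).natDegree)
  (ι : Om →+* ℂ) (hr : ∀ x ∈ M, (ι x).im = 0)
  {a s : Om} (ha : a ∈ M) (ha3 : a ^ 3 = 2) (hs : s ^ 2 = 1 + a ^ 2)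

include ho hr ha ha3 hs in
lemma s_not : s ∉ M := by
  intro hsM
  refine key_cube ho ι hr ha ha3 ⊥ bot_le ?_ hsM (one_mem _) one_ne_zero (by rw [hs, mul_one])
  intro h
  rw [IntermediateField.mem_bot] at h
  obtain ⟨q, hq⟩ := h
  refine no_rat_cube q ((algebraMap ℚ Om).injective ?_)
  rw [map_pow, hq, ha3, map_ofNat]

include hs in
lemma s_ne (hs' : s ∉ M) : s ≠ 0 := by
  rintro rfl
  exact hs' (zero_mem M)

include ha hs in
lemma s_cases (v : Om ≃ₐ[M] Om) : v s = s ∨ v s = -s := by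
  have h1 : (v s) ^ 2 = s ^ 2 := by
    rw [← map_pow, hs]
    exact v.commutes ⟨1 + a ^ 2, add_mem (one_mem _) (pow_mem ha 2)⟩
  exact sq_eq_sq_iff_eq_or_eq_neg.mp h1

open Classical in
/-- the sign character attached to a square root -/
noncomputable def nu (s : Om) (h : ∀ v : Om ≃ₐ[M] Om, v s = s ∨ v s = -s) (hs0 : s ≠ 0) :
    (Om ≃ₐ[M] Om) →* ℂˣ :=
  MonoidHom.mk' (fun v => if v s = s then 1 else -1) (by
    intro v w
    have hne : -s ≠ s := fun h1 => hs0 (self_eq_neg.mp h1.symm)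
    have hc : ∀ u : Om ≃ₐ[M] Om, u s = -s → ¬ u s = s := fun u hu => by
      rw [hu]
      exact hne
    rcases h v with h1 | h1 <;> rcases h w with h2 | h2
    · have h3 : (v * w) s = s := by
        change v (w s) = s
        rw [h2, h1]
      rw [if_pos h3, if_pos h1, if_pos h2, one_mul]
    · have h3 : (v * w) s = -s := by
        change v (w s) = -s
        rw [h2, map_neg, h1]
      rw [if_neg (hc _ h3), if_pos h1, if_neg (hc _ h2), one_mul]
    · have h3 : (v * w) s = -s := by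
        change v (w s) = -s
        rw [h2, h1]
      rw [if_neg (hc _ h3), if_neg (hc _ h1), if_pos h2, mul_one]
    · have h3 : (v * w) s = s := by
        change v (w s) = s
        rw [h2, map_neg, h1, neg_neg]
      rw [if_pos h3, if_neg (hc _ h1), if_neg (hc _ h2), neg_mul_neg, one_mul])

lemma nu_spec (h : ∀ v : Om ≃ₐ[M] Om, v s = s ∨ v s = -s) (hs0 : s ≠ 0) (v : Om ≃ₐ[M] Om) :
    (nu s h hs0 v = 1 ∧ v s = s) ∨ (nu s h hs0 v = -1 ∧ v s = -s) := by
  have hne : -s ≠ s := fun h1 => hs0 (self_eq_neg.mp h1.symm)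
  rcases h v with h1 | h1
  · exact Or.inl ⟨if_pos h1, h1⟩
  · exact Or.inr ⟨if_neg (by rw [h1]; exact hne), h1⟩

lemma nu_ne (h : ∀ v : Om ≃ₐ[M] Om, v s = s ∨ v s = -s) (hs0 : s ≠ 0) (hs' : s ∉ M) :
    nu s h hs0 ≠ 1 := by
  intro h1
  apply hs'
  refine mem_of_fixed M fun v => ?_
  rcases nu_spec h hs0 v with ⟨-, h2⟩ | ⟨h2, -⟩
  · exact h2
  · rw [h1] at h2
    exact absurd h2.symm neg_one_ne

include ho ι hr ha ha3 hs in
/-- **Linear characters over fields without a cube root of `2`.** -/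
theorem lin_false (ν : (Om ≃ₐ[M] Om) →* ℂˣ)
    (hν : ∀ v, (ν v = 1 ∧ v s = s) ∨ (ν v = -1 ∧ v s = -s))
    {F E : Type} [Field F] [NumberField F] [Field E] [NumberField E] [Algebra F E] [IsGalois F E]
    (hF : ∀ x : F, x ^ 3 ≠ 2) (τ : F →+* M) (ψ : (E ≃ₐ[F] E) →* ℂˣ)
    (hψ : ∀ v, ψ (rt M F E τ v) * ψ (rt M F E τ v) = ν v) : False := by
  classical
  have hfin := fin_ext F E
  let r := rt M F E τ
  let τ' : F →+* Om := M.val.toRingHom.comp τ
  let ε : E →+* Om := lft E τ'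
  have hr' : ∀ v (x : E), ε (r v x) = v (ε x) := fun v x => rr_spec M _ _ v x
  have hετ : ∀ y : F, ε (algebraMap F E y) = τ' y := fun y => lft_spec τ' y
  let F₁ : IntermediateField ℚ Om := τ'.toRatAlgHom.fieldRange
  have hF₁ : ∀ x : Om, x ∈ F₁ ↔ ∃ y : F, τ' y = x := fun x => Iff.rfl
  have hfin1 : FiniteDimensional ℚ F₁ :=
    Module.Finite.equiv (AlgEquiv.ofInjectiveField τ'.toRatAlgHom).toLinearEquiv
  have hF₁M : F₁ ≤ M := by
    intro x hx
    obtain ⟨y, rfl⟩ := (hF₁ x).mp hx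
    exact (τ y).2
  have haF : a ∉ F₁ := by
    intro h
    obtain ⟨y, hy⟩ := (hF₁ a).mp h
    refine hF y (τ'.injective ?_)
    rw [map_pow, hy, ha3, map_ofNat]
  -- passing to the `2`-part
  have hν4 : ∀ v, ψ (r v) ^ 4 = 1 := by
    intro v
    have h1 : ψ (r v) ^ 4 = (ψ (r v) * ψ (r v)) * (ψ (r v) * ψ (r v)) := by
      rw [← pow_two, ← pow_two, ← pow_mul]
    rw [h1, hψ]
    rcases hν v with ⟨h2, -⟩ | ⟨h2, -⟩ <;> rw [h2] <;> simp
  obtain ⟨k, m, hm, hn⟩ := Nat.exists_eq_two_pow_mul_odd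
    (n := Nat.card (E ≃ₐ[F] E)) Nat.card_pos.ne'
  have hcop : Nat.Coprime (2 ^ (k + 2)) m := Nat.Coprime.pow_left _ (Nat.coprime_two_left.mpr hm)
  obtain ⟨b, hb1, hb2⟩ := Nat.chineseRemainder hcop 1 0
  let ψ₂ : (E ≃ₐ[F] E) →* ℂˣ := ψ ^ b
  have hψ₂ : ∀ g, ψ₂ g = ψ g ^ b := fun g => rfl
  have hψ₂k : ∀ g, ψ₂ g ^ (2 ^ k) = 1 := by
    intro g
    obtain ⟨c, hc⟩ := (Nat.modEq_zero_iff_dvd.mp hb2)
    rw [hψ₂, hc, ← pow_mul]
    have h1 : m * c * 2 ^ k = (2 ^ k * m) * c := by ring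
    rw [h1, pow_mul, ← hn, ← map_pow, pow_card_eq_one', map_one, one_pow]
  have hψ₂r : ∀ v, ψ₂ (r v) = ψ (r v) := by
    intro v
    have h1 : b ≡ 1 [MOD 4] := by
      refine hb1.of_dvd ?_
      rw [pow_add]
      exact Dvd.intro_left _ rfl
    have h2 : b ≡ 1 [MOD orderOf (ψ (r v))] := h1.of_dvd (orderOf_dvd_of_pow_eq_one (hν4 v))
    rw [hψ₂]
    conv_rhs => rw [← pow_one (ψ (r v))]
    exact pow_eq_pow_iff_modEq.mpr h2
  -- the order is at most `4`
  have h4 : ∀ g, ψ₂ g ^ 4 = 1 := by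
    have hex : ∃ i : ℕ, ∀ g, ψ₂ g ^ (2 ^ i) = 1 := ⟨k, hψ₂k⟩
    let i := Nat.find hex
    have hi : ∀ g, ψ₂ g ^ (2 ^ i) = 1 := Nat.find_spec hex
    rcases Nat.lt_or_ge 2 i with hi3 | hi2
    · exfalso
      have hmin : ¬ ∀ g, ψ₂ g ^ (2 ^ (i - 1)) = 1 := Nat.find_min hex (by omega)
      let q : (E ≃ₐ[F] E) →* ℂˣ := ψ₂ ^ (2 ^ (i - 1))
      have hqv : ∀ g, q g = ψ₂ g ^ (2 ^ (i - 1)) := fun g => rfl
      have hq : Sg q := by
        intro g
        have h1 : q g * q g = 1 := by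
          rw [hqv, ← pow_add, ← two_mul, ← pow_succ']
          have : i - 1 + 1 = i := by omega
          rw [this]
          exact hi g
        have h5 : ((q g : ℂˣ) : ℂ) * ((q g : ℂˣ) : ℂ) = 1 := by
          rw [← Units.val_mul, h1, Units.val_one]
        rcases mul_self_eq_one_iff.mp h5 with h6 | h6
        · left; exact Units.ext h6
        · right; exact Units.ext (by rw [h6]; simp)
      obtain ⟨x, hx0, hx⟩ := exists_eigen q hq
      have hqr : ∀ v, q (r v) = 1 := by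
        intro v
        rw [hqv, hψ₂r]
        obtain ⟨c, hc⟩ : 4 ∣ 2 ^ (i - 1) := by
          have : (4 : ℕ) = 2 ^ 2 := by norm_num
          rw [this]
          exact pow_dvd_pow 2 (by omega)
        rw [hc, pow_mul, hν4, one_pow]
      have hxM : ε x ∈ M := mem_of_fixed M fun v => by
        rw [← hr', (hx _).1 (hqr v)]
      have hx2 : ∃ d : F, algebraMap F E d = x ^ 2 := by
        refine (IsGalois.mem_range_algebraMap_iff_fixed (F := F) (x ^ 2)).mpr fun g => ?_
        rw [map_pow]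
        rcases hq g with h1 | h1
        · rw [(hx g).1 h1]
        · rw [(hx g).2 h1, neg_sq]
      obtain ⟨d, hd⟩ := hx2
      have hxF : ε x ∈ F₁ := by
        refine sq_mem ho F₁ hF₁M hxM ?_
        rw [← map_pow, ← hd, hετ]
        exact (hF₁ _).mpr ⟨d, rfl⟩
      obtain ⟨y, hy⟩ := (hF₁ _).mp hxF
      rw [← hετ] at hy
      have hy' := ε.injective hy
      apply hmin
      intro g
      rcases hq g with h1 | h1
      · exact h1
      · exfalso
        have h2 := (hx g).2 h1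
        rw [← hy', g.commutes] at h2
        exact hx0 (by rw [← hy']; exact self_eq_neg.mp h2)
    · intro g
      obtain ⟨c, hc⟩ : 2 ^ i ∣ 4 := by
        have : (4 : ℕ) = 2 ^ 2 := by norm_num
        rw [this]
        exact pow_dvd_pow 2 hi2
      rw [hc, pow_mul, hi, one_pow]
  -- the square
  let q : (E ≃ₐ[F] E) →* ℂˣ := ψ₂ ^ 2
  have hqv : ∀ g, q g = ψ₂ g ^ 2 := fun g => rfl
  have hq : Sg q := by
    intro g
    have h1 : q g * q g = 1 := by
      rw [hqv, ← pow_add]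
      exact h4 g
    have h5 : ((q g : ℂˣ) : ℂ) * ((q g : ℂˣ) : ℂ) = 1 := by
      rw [← Units.val_mul, h1, Units.val_one]
    rcases mul_self_eq_one_iff.mp h5 with h6 | h6
    · left; exact Units.ext h6
    · right; exact Units.ext (by rw [h6]; simp)
  obtain ⟨x, hx0, hx⟩ := exists_eigen q hq
  have hqr : ∀ v, q (r v) = ν v := by
    intro v
    rw [hqv, hψ₂r, pow_two]
    exact hψ v
  obtain ⟨d, hd⟩ : ∃ d : F, algebraMap F E d = x ^ 2 := by
    refine (IsGalois.mem_range_algebraMap_iff_fixed (F := F) (x ^ 2)).mpr fun g => ?_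
    rw [map_pow]
    rcases hq g with h1 | h1
    · rw [(hx g).1 h1]
    · rw [(hx g).2 h1, neg_sq]
  have hzM : s * ε x ∈ M := by
    refine mem_of_fixed M fun v => ?_
    rw [map_mul, ← hr']
    rcases hν v with ⟨h1, h2⟩ | ⟨h1, h2⟩
    · rw [(hx _).1 ((hqr v).trans h1), h2]
    · rw [(hx _).2 ((hqr v).trans h1), h2, map_neg, neg_mul_neg]
  refine key_cube ho ι hr ha ha3 F₁ hF₁M haF hzM (d := τ' d) ((hF₁ _).mpr ⟨d, rfl⟩) ?_ ?_
  · intro h1
    have h2 : d = 0 := (map_eq_zero τ').mp h1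
    rw [h2, map_zero] at hd
    exact hx0 (pow_eq_zero_iff (two_ne_zero) |>.mp hd.symm)
  · rw [mul_pow, hs, ← map_pow, ← hd, hετ]

end

end Pool.Agent.W2helper1.SI
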