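import Mathlib
import Pool.Agent.W2helper1.SI.Lin

/-!
# A cyclic quartic extension of the field generated by the cube root of `2`
-/

set_option autoImplicit false
set_option linter.unusedSectionVars false

namespace Pool.Agent.W2helper1.SI

open Polynomial IntermediateField Module Pool.Agent.K4H74.ST NumberField
  NumberField.ComplexEmbedding

/-- the imaginary unit as a unit -/
noncomputable def iU : ℂˣ := Units.mk0 Complex.I Complex.I_ne_zero

lemma iU_sq : iU * iU = -1 := by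
  ext
  rw [Units.val_mul]
  change Complex.I * Complex.I = _
  rw [Complex.I_mul_I]
  simp

lemma iU_order : orderOf iU = 4 := by
  have h1 : iU ^ 2 ≠ 1 := by
    rw [pow_two, iU_sq]
    exact neg_one_ne
  have h2 : iU ^ 4 = 1 := by
    have : iU ^ 4 = (iU * iU) * (iU * iU) := by rw [← pow_two, ← pow_two, ← pow_mul]
    rw [this, iU_sq]
    simp
  have h3 := orderOf_eq_prime_pow (p := 2) (n := 1) (x := iU) (by simpa using h1)
    (by simpa using h2)
  simpa using h3

/-- abstract form -/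
theorem quart_abs {K L : Type} [Field K] [NumberField K] [Field L] [NumberField L] [Algebra K L]
    [IsGalois K L] {a : K} {s b : L} (hs : s ^ 2 = 1 + algebraMap K L a ^ 2)
    (hb : b ^ 2 = 1 + algebraMap K L a ^ 2 + s) (ha : a ≠ 0) (hb0 : b ≠ 0)
    (hgen : ∀ g : L ≃ₐ[K] L, g b = b → g = 1) (σ : L ≃ₐ[K] L) (hσs : σ s = -s)
    (hσb : σ (σ b) = -b) :
    Nat.card (L ≃ₐ[K] L) = 4 ∧ IsCyclic (L ≃ₐ[K] L) ∧
      (∀ (φ : L →+* ℂ) (c : L ≃ₐ[K] L), IsConj φ c → c = 1) ∧
      ∃ ψ : (L ≃ₐ[K] L) →* ℂˣ, Function.Injective ψ ∧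
        ∀ g, (g s = s ∧ ψ g * ψ g = 1) ∨ (g s = -s ∧ ψ g * ψ g = -1) := by
  have hfin := fin_ext K L
  have hba : b ≠ -b := fun h => hb0 (self_eq_neg.mp h)
  have h2 : ∀ g : L ≃ₐ[K] L, g s = s → g = 1 ∨ g = σ ^ 2 := by
    intro g hg
    have h3 : (g b) ^ 2 = b ^ 2 := by
      rw [← map_pow, hb, map_add, map_add, map_one, map_pow, g.commutes, hg]
    rcases sq_eq_sq_iff_eq_or_eq_neg.mp h3 with h4 | h4
    · exact Or.inl (hgen g h4)
    · right
      have h5 : (σ ^ 2)⁻¹ * g = 1 := by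
        apply hgen
        have h6 : (σ ^ 2) b = g b := by
          rw [h4, pow_two]
          exact hσb
        change (σ ^ 2)⁻¹ (g b) = b
        rw [← h6]
        exact AlgEquiv.symm_apply_apply _ _
      exact (inv_mul_eq_one.mp h5).symm
  have hscase : ∀ g : L ≃ₐ[K] L, g s = s ∨ g s = -s := by
    intro g
    refine sq_eq_sq_iff_eq_or_eq_neg.mp ?_
    rw [← map_pow, hs, map_add, map_one, map_pow, g.commutes]
  have hall : ∀ g : L ≃ₐ[K] L, g ∈ Subgroup.zpowers σ := by
    intro g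
    have h3 : ∀ g : L ≃ₐ[K] L, g s = s → g ∈ Subgroup.zpowers σ := by
      intro g hg
      rcases h2 g hg with h4 | h4
      · rw [h4]; exact one_mem _
      · rw [h4]; exact pow_mem (Subgroup.mem_zpowers σ) 2
    rcases hscase g with h4 | h4
    · exact h3 g h4
    · have h5 : (σ⁻¹ * g) s = s := by
        change σ⁻¹ (g s) = s
        have h6 : σ s = g s := by rw [h4, hσs]
        rw [← h6]
        exact AlgEquiv.symm_apply_apply _ _
      have h6 := h3 _ h5
      have h7 : g = σ * (σ⁻¹ * g) := by group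
      rw [h7]
      exact mul_mem (Subgroup.mem_zpowers σ) h6
  have hord : orderOf σ = 4 := by
    have h3 := orderOf_eq_prime_pow (p := 2) (n := 1) (x := σ) (by
      rw [pow_one]
      intro h4
      have h5 := AlgEquiv.congr_fun h4 b
      rw [pow_two] at h5
      change σ (σ b) = b at h5
      rw [hσb] at h5
      exact hba h5.symm) (by
      apply hgen
      have h4 : σ ^ 2 ^ (1 + 1) = σ * σ * (σ * σ) := by
        rw [← pow_two, ← pow_two, ← pow_mul]
        norm_num
      rw [h4]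
      change σ (σ (σ (σ b))) = b
      rw [hσb, map_neg, map_neg, hσb, neg_neg])
    simpa using h3
  have hcard : Nat.card (L ≃ₐ[K] L) = 4 := by
    rw [← hord]
    exact (orderOf_eq_card_of_forall_mem_zpowers hall).symm
  refine ⟨hcard, ⟨σ, hall⟩, ?_, ?_⟩
  · intro φ c hc
    have hca : (φ (algebraMap K L a)).im = 0 := by
      rw [← isConj_fix hc]
      exact c.commutes a
    have hφa : φ (algebraMap K L a) ≠ 0 := by
      rw [_root_.map_ne_zero, _root_.map_ne_zero]
      exact ha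
    have hare : (φ (algebraMap K L a)).re ≠ 0 := fun h => hφa (Complex.ext h hca)
    have hpos : 0 < (φ (algebraMap K L a)).re ^ 2 := by positivity
    have hδ : φ (1 + algebraMap K L a ^ 2)
        = ((1 + (φ (algebraMap K L a)).re ^ 2 : ℝ) : ℂ) := by
      have h3 : φ (algebraMap K L a) = (((φ (algebraMap K L a)).re : ℝ) : ℂ) :=
        Complex.ext rfl (by rw [Complex.ofReal_im, hca])
      rw [map_add, map_one, map_pow]
      nth_rewrite 1 [h3]
      push_cast
      rfl
    have hcs : c s = s := by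
      refine sqrt_pos hc ?_ ?_
      · rw [← pow_two, hs, hδ, Complex.ofReal_im]
      · rw [← pow_two, hs, hδ, Complex.ofReal_re]
        positivity
    have hsim : (φ s).im = 0 := (isConj_fix hc).mp hcs
    have hs2 : (φ s).re ^ 2 = 1 + (φ (algebraMap K L a)).re ^ 2 := by
      have h3 : φ s = (((φ s).re : ℝ) : ℂ) := Complex.ext rfl (by rw [Complex.ofReal_im, hsim])
      have h4 := congrArg φ hs
      rw [hδ, map_pow, h3] at h4
      exact_mod_cast h4
    have hcb : c b = b := by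
      refine sqrt_pos hc ?_ ?_
      · rw [← pow_two, hb, map_add, hδ, Complex.add_im, Complex.ofReal_im, hsim, add_zero]
      · rw [← pow_two, hb, map_add, hδ, Complex.add_re, Complex.ofReal_re]
        nlinarith [sq_nonneg ((φ s).re + 1), sq_nonneg ((φ s).re), hs2, hpos]
    exact hgen c hcb
  · let ψ : (L ≃ₐ[K] L) →* ℂˣ := monoidHomOfForallMemZpowers hall (g' := iU)
      (by rw [iU_order, hord])
    have hψ : ψ σ = iU := monoidHomOfForallMemZpowers_apply_gen hall _
    refine ⟨ψ, ?_, ?_⟩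
    · rw [injective_iff_map_eq_one]
      intro g hg
      obtain ⟨k, hk⟩ := Subgroup.mem_zpowers_iff.mp (hall g)
      rw [← hk] at hg ⊢
      rw [map_zpow, hψ, ← orderOf_dvd_iff_zpow_eq_one, iU_order] at hg
      rw [← orderOf_dvd_iff_zpow_eq_one, hord]
      exact hg
    · have h3 : ∀ g : L ≃ₐ[K] L, g s = s → ψ g * ψ g = 1 := by
        intro g hg
        rcases h2 g hg with h4 | h4
        · rw [h4, map_one, one_mul]
        · rw [h4, map_pow, hψ, pow_two, iU_sq]
          simp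
      intro g
      rcases hscase g with h4 | h4
      · exact Or.inl ⟨h4, h3 g h4⟩
      · right
        refine ⟨h4, ?_⟩
        have h5 : (σ⁻¹ * g) s = s := by
          change σ⁻¹ (g s) = s
          have h6 : σ s = g s := by rw [h4, hσs]
          rw [← h6]
          exact AlgEquiv.symm_apply_apply _ _
        have h6 := h3 _ h5
        have h7 : g = σ * (σ⁻¹ * g) := by group
        rw [h7, map_mul, mul_mul_mul_comm, h6, mul_one, hψ, iU_sq]

/-- the extension -/
theorem exists_quart {a s : Om} (ha0 : a ≠ 0) (hs : s ^ 2 = 1 + a ^ 2) (hsK : s ∉ ℚ⟮a⟯) :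
    ∃ (L : IntermediateField ℚ⟮a⟯ Om) (_ : NumberField ℚ⟮a⟯) (_ : NumberField L)
      (_ : IsGalois ℚ⟮a⟯ L) (sL : L), (sL : Om) = s ∧
      Nat.card (L ≃ₐ[ℚ⟮a⟯] L) = 4 ∧ IsCyclic (L ≃ₐ[ℚ⟮a⟯] L) ∧
      (∀ (φ : L →+* ℂ) (c : L ≃ₐ[ℚ⟮a⟯] L), IsConj φ c → c = 1) ∧
      ∃ ψ : (L ≃ₐ[ℚ⟮a⟯] L) →* ℂˣ, Function.Injective ψ ∧
        ∀ g, (g sL = sL ∧ ψ g * ψ g = 1) ∨ (g sL = -sL ∧ ψ g * ψ g = -1) := by
  have hs0 : s ≠ 0 := by
    rintro rfl
    exact hsK (zero_mem _)
  have hfinK : FiniteDimensional ℚ ℚ⟮a⟯ :=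
    adjoin.finiteDimensional (Algebra.IsIntegral.isIntegral a)
  have hK : NumberField ℚ⟮a⟯ := { to_charZero := inferInstance, to_finiteDimensional := hfinK }
  let δ : Om := 1 + a ^ 2
  have hs1 : s ≠ -1 := by
    rintro rfl
    exact hsK (neg_mem (one_mem _))
  have hδs : δ + s = s * (s + 1) := by
    change 1 + a ^ 2 + s = _
    linear_combination - hs
  obtain ⟨b, hb⟩ := IsAlgClosed.exists_pow_nat_eq (δ + s) (n := 2) (by norm_num)
  have hb0 : b ≠ 0 := by
    rintro rfl
    rw [hδs] at hb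
    have h1 : s * (s + 1) = 0 := by rw [← hb]; norm_num
    rcases mul_eq_zero.mp h1 with h2 | h2
    · exact hs0 h2
    · exact hs1 (eq_neg_of_add_eq_zero_left h2)
  let b' : Om := a * s / b
  have hb' : b' ^ 2 = δ - s := by
    have h1 : b' ^ 2 * b ^ 2 = (δ - s) * b ^ 2 := by
      change (a * s / b) ^ 2 * b ^ 2 = _
      rw [div_pow, div_mul_cancel₀ _ (pow_ne_zero 2 hb0), hb]
      change (a * s) ^ 2 = (1 + a ^ 2 - s) * (1 + a ^ 2 + s)
      linear_combination (a ^ 2 + 1) * hs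
    exact mul_right_cancel₀ (pow_ne_zero 2 hb0) h1
  let L : IntermediateField ℚ⟮a⟯ Om := ℚ⟮a⟯⟮b⟯
  have hbL : b ∈ L := mem_adjoin_simple_self _ b
  have haL : a ∈ L := L.algebraMap_mem ⟨a, mem_adjoin_simple_self ℚ a⟩
  have hsL : s ∈ L := by
    have h1 : s = b ^ 2 - (1 + a ^ 2) := by
      rw [hb]
      change s = 1 + a ^ 2 + s - (1 + a ^ 2)
      ring
    rw [h1]
    exact sub_mem (pow_mem hbL 2) (add_mem (one_mem _) (pow_mem haL 2))
  have hb'L : b' ∈ L := div_mem (mul_mem haL hsL) hbL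
  have hfinL : FiniteDimensional ℚ⟮a⟯ L := adjoin.finiteDimensional (isInt _ b)
  have hfinL' : FiniteDimensional ℚ L := FiniteDimensional.trans ℚ ℚ⟮a⟯ L
  have hLn : NumberField L := { to_charZero := inferInstance, to_finiteDimensional := hfinL' }
  have hva : ∀ v : Om ≃ₐ[ℚ⟮a⟯] Om, v a = a := fun v =>
    v.commutes ⟨a, mem_adjoin_simple_self ℚ a⟩
  have hvs : ∀ v : Om ≃ₐ[ℚ⟮a⟯] Om, v s = s ∨ v s = -s := by
    intro v
    refine sq_eq_sq_iff_eq_or_eq_neg.mp ?_
    rw [← map_pow, hs, map_add, map_one, map_pow, hva]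
  have hvb : ∀ v : Om ≃ₐ[ℚ⟮a⟯] Om, (v s = s ∧ (v b = b ∨ v b = -b)) ∨
      (v s = -s ∧ (v b = b' ∨ v b = -b')) := by
    intro v
    have h1 : (v b) ^ 2 = δ + v s := by
      rw [← map_pow, hb, map_add]
      change v (1 + a ^ 2) + v s = 1 + a ^ 2 + v s
      rw [map_add, map_one, map_pow, hva]
    rcases hvs v with h2 | h2
    · left
      refine ⟨h2, sq_eq_sq_iff_eq_or_eq_neg.mp ?_⟩
      rw [h1, h2, hb]
    · right
      refine ⟨h2, sq_eq_sq_iff_eq_or_eq_neg.mp ?_⟩
      rw [h1, h2, hb', sub_eq_add_neg]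
  have hnorm : Normal ℚ⟮a⟯ L := by
    rw [normal_iff_forall_map_le']
    intro v
    rw [IntermediateField.map_le_iff_le_comap, adjoin_simple_le_iff]
    change v b ∈ L
    rcases hvb v with ⟨-, h | h⟩ | ⟨-, h | h⟩ <;> rw [h]
    · exact hbL
    · exact neg_mem hbL
    · exact hb'L
    · exact neg_mem hb'L
  have hgal : IsGalois ℚ⟮a⟯ L := ⟨⟩
  obtain ⟨v, hv⟩ : ∃ v : Om ≃ₐ[ℚ⟮a⟯] Om, v s ≠ s := by
    by_contra h
    push Not at h
    exact hsK (mem_of_fixed _ h)
  have hvs' : v s = -s := (hvs v).resolve_left hv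
  have hvvb : v (v b) = -b := by
    rcases hvb v with ⟨h, -⟩ | ⟨-, h⟩
    · exact absurd h hv
    · have h1 : v (a * s / b) = - (a * s) / v b := by
        rw [map_div₀, map_mul, hva, hvs', mul_neg]
      have has : a * s ≠ 0 := mul_ne_zero ha0 hs0
      rcases h with h | h
      · rw [h]
        change v (a * s / b) = _
        rw [h1, h]
        change - (a * s) / (a * s / b) = - b
        rw [neg_div, div_div_cancel₀ has]
      · rw [h, map_neg]
        change - v (a * s / b) = _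
        rw [h1, h]
        change - (- (a * s) / (- (a * s / b))) = - b
        rw [neg_div_neg_eq, div_div_cancel₀ has]
  let σ : L ≃ₐ[ℚ⟮a⟯] L := AlgEquiv.restrictNormalHom L v
  have hσ : ∀ x : L, ((σ x : L) : Om) = v x := fun x => AlgEquiv.restrictNormal_commutes v L x
  have hquart := quart_abs (K := ℚ⟮a⟯) (L := L) (a := ⟨a, mem_adjoin_simple_self ℚ a⟩)
    (s := ⟨s, hsL⟩) (b := ⟨b, hbL⟩) (Subtype.ext hs) (Subtype.ext hb)
    (fun h => ha0 (congrArg Subtype.val h)) (fun h => hb0 (congrArg Subtype.val h)) (by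
      intro g hg
      have h1 : (g : L →ₐ[ℚ⟮a⟯] L) = AlgHom.id _ L := by
        refine (adjoin.powerBasis (isInt ℚ⟮a⟯ b)).algHom_ext ?_
        rw [adjoin.powerBasis_gen]
        exact hg
      ext x
      rw [show g x = x from AlgHom.congr_fun h1 x]
      rfl) σ (Subtype.ext (by rw [hσ]; exact hvs')) (Subtype.ext (by
      rw [hσ, hσ]
      exact hvvb))
  exact ⟨L, hK, hLn, hgal, ⟨s, hsL⟩, rfl, hquart.1, hquart.2.1, hquart.2.2.1, hquart.2.2.2⟩

end Pool.Agent.W2helper1.SI
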