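import Mathlib
import Pool.Agent.K4H74.ST.Exc
import Pool.Agent.W2helper1.SI.Quart

/-!
# The values of the exceptional invariant
-/

set_option autoImplicit false
set_option linter.unusedSectionVars false

namespace Pool.Agent.W2helper1.SI

open NumberField NumberField.ComplexEmbedding Pool.Agent.K4H74.ST

section kernel

/-- characters are inflated from the fixed field of the kernel -/
theorem exists_kernel (K L : Type) [Field K] [NumberField K] [Field L] [NumberField L]
    [Algebra K L] [IsGalois K L] {χ : (L ≃ₐ[K] L) → ℂ} (hχ : IsChar χ) :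
    ∃ (E : Type) (_ : Field E) (_ : NumberField E) (_ : Algebra K E) (_ : IsGalois K E)
      (_ : Algebra E L) (_ : IsScalarTower K E L) (χ₀ : (E ≃ₐ[K] E) → ℂ), IsChar χ₀ ∧
      (∀ g : L ≃ₐ[K] L, χ₀ (AlgEquiv.restrictNormalHom E g) = χ g) ∧
      ∀ g : L ≃ₐ[K] L, g * g = 1 → χ g = - χ 1 → ∀ h : L ≃ₐ[K] L,
        AlgEquiv.restrictNormalHom E (g * h) = AlgEquiv.restrictNormalHom E (h * g) := by
  have hfin := fin_ext K L
  obtain ⟨V, _, _, _, ρ, rfl⟩ := hχ
  let H : Subgroup (L ≃ₐ[K] L) := MonoidHom.ker ρ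
  have hH : H.Normal := MonoidHom.normal_ker ρ
  let E : IntermediateField K L := IntermediateField.fixedField H
  have hE : IsGalois K E := IsGalois.of_fixedField_normal_subgroup H
  let e : (L ≃ₐ[K] L) ⧸ H ≃* (E ≃ₐ[K] E) := IsGalois.normalAutEquivQuotient H
  have he : ∀ g : L ≃ₐ[K] L, e g = AlgEquiv.restrictNormalHom E g := fun g => rfl
  let ρ₀ : Representation ℂ (E ≃ₐ[K] E) V :=
    (QuotientGroup.lift H ρ le_rfl).comp e.symm.toMonoidHom
  have hρ₀ : ∀ g : L ≃ₐ[K] L, ρ₀ (AlgEquiv.restrictNormalHom E g) = ρ g := by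
    intro g
    change (QuotientGroup.lift H ρ le_rfl) (e.symm (AlgEquiv.restrictNormalHom E g)) = ρ g
    rw [← he, MulEquiv.symm_apply_apply]
    rfl
  refine ⟨E, inferInstance, inferInstance, inferInstance, hE, inferInstance, inferInstance,
    ρ₀.character, ⟨V, inferInstance, inferInstance, inferInstance, ρ₀, rfl⟩, fun g => ?_, ?_⟩
  · change LinearMap.trace ℂ V (ρ₀ _) = LinearMap.trace ℂ V (ρ g)
    rw [hρ₀]
  · intro g hg hχg h
    let T : V →ₗ[ℂ] V := ρ g
    have hT : T * T = 1 := by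
      change ρ g * ρ g = 1
      rw [← map_mul, hg, map_one]
    let P : V →ₗ[ℂ] V := (1 / 2 : ℂ) • (1 + T)
    have hP : IsIdempotentElem P := by
      change ((1 / 2 : ℂ) • (1 + T)) * ((1 / 2 : ℂ) • (1 + T)) = (1 / 2 : ℂ) • (1 + T)
      rw [smul_mul_smul_comm, mul_add, add_mul, add_mul, hT, one_mul, one_mul, mul_one]
      have h1 : (1 + T + (T + 1) : V →ₗ[ℂ] V) = (2 : ℂ) • (1 + T) := by
        rw [two_smul]
        abel
      rw [h1, smul_smul]
      norm_num
    have htr : LinearMap.trace ℂ V P = 0 := by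
      change LinearMap.trace ℂ V ((1 / 2 : ℂ) • (1 + T)) = 0
      rw [map_smul, map_add]
      have h1 : LinearMap.trace ℂ V T = - LinearMap.trace ℂ V (ρ 1) := hχg
      have h2 : ρ 1 = 1 := ρ.map_one
      rw [h1, h2, add_neg_cancel, smul_zero]
    have hP0 : P = 0 := LinearMap.IsIdempotentElem.eq_zero_of_trace_eq_zero hP htr
    have hT1 : T = -1 := by
      have h1 : (2 : ℂ) • P = 1 + T := by
        change (2 : ℂ) • ((1 / 2 : ℂ) • (1 + T)) = 1 + T
        rw [smul_smul]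
        norm_num
      rw [hP0, smul_zero] at h1
      exact eq_neg_of_add_eq_zero_right h1.symm
    have hgh : ρ (g * h) = ρ (h * g) := by
      rw [map_mul, map_mul]
      change T * ρ h = ρ h * T
      rw [hT1, neg_mul, mul_neg, one_mul, mul_one]
    rw [← he, ← he]
    congr 1
    rw [QuotientGroup.eq]
    change ρ ((g * h)⁻¹ * (h * g)) = 1
    rw [map_mul, ← hgh, ← map_mul, inv_mul_cancel, map_one]

end kernel

section cube

/-- totally real fields have no cube root of `2` -/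
lemma real_no_cube {F : Type} [Field F] [NumberField F] (hF : IsTotallyReal F) (y : F) :
    y ^ 3 ≠ 2 := by
  intro hy
  have h1 := NumberField.Embeddings.range_eval_eq_rootSet_minpoly F ℂ y
  have h2 : ∀ φ : F →+* ℂ, φ y = (((φ y).re : ℝ) : ℂ) ∧ (φ y).re ^ 3 = 2 := by
    intro φ
    have h3 : ComplexEmbedding.IsReal φ := by
      have h4 := hF.isReal (InfinitePlace.mk φ)
      rwa [InfinitePlace.isReal_mk_iff] at h4
    have h4 : (φ y).im = 0 := by
      have h5 := RingHom.congr_fun h3 y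
      exact Complex.conj_eq_iff_im.mp h5
    have h5 : φ y = (((φ y).re : ℝ) : ℂ) := Complex.ext rfl (by rw [Complex.ofReal_im, h4])
    refine ⟨h5, ?_⟩
    have h6 := congrArg φ hy
    rw [map_pow, map_ofNat, h5] at h6
    exact_mod_cast h6
  have h3 : ∀ z ∈ (minpoly ℚ y).rootSet ℂ, ∀ w ∈ (minpoly ℚ y).rootSet ℂ, z = w := by
    intro z hz w hw
    rw [← h1] at hz hw
    obtain ⟨φ, rfl⟩ := hz
    obtain ⟨φ', rfl⟩ := hw
    change φ y = φ' y
    rw [(h2 φ).1, (h2 φ').1]
    congr 1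
    exact (Odd.strictMono_pow (by decide : Odd 3)).injective
      ((h2 φ).2.trans (h2 φ').2.symm)
  have hint : IsIntegral ℚ y := Algebra.IsIntegral.isIntegral y
  have h4 : (minpoly ℚ y).natDegree ≤ 1 := by
    rw [← Polynomial.card_rootSet_eq_natDegree (K := ℂ) (Algebra.IsSeparable.isSeparable ℚ y)
      (IsAlgClosed.splits _)]
    rw [Fintype.card_le_one_iff]
    intro a b
    exact Subtype.ext (h3 a a.2 b b.2)
  have h5 : (minpoly ℚ y).natDegree = 1 := le_antisymm h4 (minpoly.natDegree_pos hint)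
  rw [minpoly.natDegree_eq_one_iff] at h5
  obtain ⟨q, hq⟩ := h5
  refine no_rat_cube q ((algebraMap ℚ F).injective ?_)
  rw [map_pow, hq, hy, map_ofNat]

end cube

section vals

variable {M : IntermediateField ℚ Om} (ι : Om →+* ℂ) (hr : ∀ x ∈ M, (ι x).im = 0)
  (ν : (Om ≃ₐ[M] Om) →* ℂˣ)

include hr in
/-- totally complex base fields -/
lemma vl_complex (F E : Type) [Field F] [NumberField F] [Field E] [NumberField E] [Algebra F E]
    [IsGalois F E] (hF : IsTotallyComplex F) (χ : (E ≃ₐ[F] E) → ℂ) : vl M ν F E χ = 1 := by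
  have := fin_ext F E
  have hempty : IsEmpty (F →+* M) := by
    refine ⟨fun τ => ?_⟩
    let φ : F →+* ℂ := ι.comp (M.val.toRingHom.comp τ)
    have h1 : ComplexEmbedding.IsReal φ := by
      ext y
      exact Complex.conj_eq_iff_im.mpr (hr _ (τ y).2)
    have h2 : (InfinitePlace.mk φ).IsReal := InfinitePlace.isReal_mk_iff.mpr h1
    have h3 := hF.isComplex (InfinitePlace.mk φ)
    exact InfinitePlace.not_isReal_iff_isComplex.mpr h3 h2
  rw [vl_eq]
  exact Fintype.prod_empty _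

/-- real valued characters -/
lemma vl_real (hν : ∀ v, ν v * ν v = 1) (hν1 : ν ≠ 1) (F E : Type) [Field F] [NumberField F]
    [Field E] [NumberField E] [Algebra F E] [IsGalois F E] {χ : (E ≃ₐ[F] E) → ℂ} (hχ : IsChar χ)
    (h : ∀ g, (starRingEnd ℂ) (χ g) = χ g) : vl M ν F E χ = 1 := by
  have := fin_ext F E
  rw [vl_eq]
  exact Finset.prod_eq_one fun τ _ => par_even (NR_real ν _ hχ h hν hν1)

variable (ho : ∀ x ∈ M, Odd (minpoly ℚ x).natDegree)
  {a s : Om} (ha : a ∈ M) (ha3 : a ^ 3 = 2) (hs : s ^ 2 = 1 + a ^ 2)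
  (hν : ∀ v, (ν v = 1 ∧ v s = s) ∨ (ν v = -1 ∧ v s = -s))

include ho ι hr ha ha3 hs hν in
/-- linear characters of fields without a cube root of `2` -/
lemma vl_lin (F E : Type) [Field F] [NumberField F] [Field E] [NumberField E] [Algebra F E]
    [IsGalois F E] (hF : ∀ x : F, x ^ 3 ≠ 2) (ψ : (E ≃ₐ[F] E) →* ℂˣ) :
    vl M ν F E (lc ψ) = 1 := by
  have := fin_ext F E
  rw [vl_eq]
  refine Finset.prod_eq_one fun τ _ => ?_
  rw [NR_lin_zero ν _ ψ fun h => lin_false ho ι hr ha ha3 hs ν hν hF τ ψ h]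
  exact par_even Ev.zero

include hr ha ha3 hs hν in
/-- the exceptional character -/
lemma vl_exc (K L : Type) [Field K] [NumberField K] [Field L] [NumberField L] [Algebra K L]
    [IsGalois K L] (τ₀ : K →+* M) (hτ₀ : ∀ τ : K →+* M, τ = τ₀) {b : K} (hb : (τ₀ b : Om) = a)
    {t : L} (ht : t ^ 2 = 1 + algebraMap K L b ^ 2) (ψ : (L ≃ₐ[K] L) →* ℂˣ)
    (hψ : ∀ g, (g t = t ∧ ψ g * ψ g = 1) ∨ (g t = -t ∧ ψ g * ψ g = -1)) (hs0 : s ≠ 0) :
    vl M ν K L (lc ψ) = -1 := by
  have := fin_ext K L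
  rw [vl_eq]
  have huniv : (Finset.univ : Finset (K →+* M)) = {τ₀} := by
    ext τ
    simp [hτ₀ τ]
  rw [huniv, Finset.prod_singleton]
  have h1 : ∀ v, ψ (rt M K L τ₀ v) * ψ (rt M K L τ₀ v) = ν v := by
    intro v
    let τ' : K →+* Om := M.val.toRingHom.comp τ₀
    let ε : L →+* Om := lft L τ'
    have hε : ∀ z : L, ε (rt M K L τ₀ v z) = v (ε z) := fun z => rr_spec M _ _ v z
    have hεt : ε t = s ∨ ε t = -s := by
      refine sq_eq_sq_iff_eq_or_eq_neg.mp ?_
      rw [← map_pow, ht, map_add, map_one, map_pow, lft_spec, hs]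
      change 1 + (τ₀ b : Om) ^ 2 = 1 + a ^ 2
      rw [hb]
    have hne : ∀ w : Om, w ≠ 0 → -w ≠ w := fun w hw h => hw (self_eq_neg.mp h.symm)
    have hεt0 : ε t ≠ 0 := by
      rcases hεt with h | h <;> rw [h]
      · exact hs0
      · exact neg_ne_zero.mpr hs0
    have hvε : (v s = s → v (ε t) = ε t) ∧ (v s = -s → v (ε t) = - ε t) := by
      rcases hεt with h | h <;> rw [h]
      · exact ⟨id, id⟩
      · rw [map_neg]
        exact ⟨fun h2 => by rw [h2], fun h2 => by rw [h2]⟩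
    rcases hψ (rt M K L τ₀ v) with ⟨h2, h3⟩ | ⟨h2, h3⟩ <;> rw [h3]
    · rcases hν v with ⟨h4, h5⟩ | ⟨h4, h5⟩
      · exact h4.symm
      · exfalso
        have h6 := hε t
        rw [h2, hvε.2 h5] at h6
        exact hne _ hεt0 h6.symm
    · rcases hν v with ⟨h4, h5⟩ | ⟨h4, h5⟩
      · exfalso
        have h6 := hε t
        rw [h2, map_neg, hvε.1 h5] at h6
        exact hne _ hεt0 h6
      · exact h4.symm
  rw [NR_lin_one ν _ ψ h1]
  refine if_neg ?_
  rintro ⟨m, hm⟩
  have h2 : (1 : ℤ) = 2 * m := by exact_mod_cast hm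
  omega

end vals

end Pool.Agent.W2helper1.SI
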