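import Mathlib
import Pool.Agent.K4H34.AL.Comb
import Pool.Agent.W2helper1.SI.Cov
import Pool.Agent.W2helper1.SI.Rel

/-!
# The exceptional invariant
-/

set_option autoImplicit false
set_option linter.unusedSectionVars false

namespace Pool.Agent.W2helper1.SI

open NumberField NumberField.ComplexEmbedding Pool.Agent.K4H74.ST Pool.Agent.K4H74.SK

lemma mem_adjoin_any {K : Type} [Field K] (i₁ i₂ : Algebra ℚ K) (b x : K)
    (h : x ∈ @Algebra.adjoin ℚ K _ _ i₁ {b}) : x ∈ @Algebra.adjoin ℚ K _ _ i₂ {b} := by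
  have h1 := Subsingleton.elim i₁ i₂
  subst h1
  exact h

open Polynomial in
/-- abelian extensions of `ℚ` do not contain a cube root of `2` -/
lemma abel_no_cube (L : Type) [Field L] [NumberField L] [IsGalois ℚ L]
    (hab : ∀ g h : L ≃ₐ[ℚ] L, g * h = h * g) (y : L) : y ^ 3 ≠ 2 := by
  intro hy
  have hirr : Irreducible (X ^ 3 - C (2 : ℚ)) :=
    X_pow_sub_C_irreducible_of_prime Nat.prime_three no_rat_cube
  have hmin : (X ^ 3 - C (2 : ℚ)) = minpoly ℚ y := by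
    refine minpoly.eq_of_irreducible_of_monic hirr ?_ (monic_X_pow_sub_C _ (by norm_num))
    rw [map_sub, map_pow, aeval_X, aeval_C, map_ofNat, hy, sub_self]
  obtain ⟨r, hr⟩ : ∃ r : ℝ, r ^ 3 = 2 := ⟨(2 : ℝ) ^ ((1 : ℝ) / 3), by
    rw [← Real.rpow_natCast, ← Real.rpow_mul (by norm_num)]
    norm_num⟩
  have h1 := NumberField.Embeddings.range_eval_eq_rootSet_minpoly L ℂ y
  have h2 : (r : ℂ) ∈ (minpoly ℚ y).rootSet ℂ := by
    rw [← hmin, mem_rootSet]
    refine ⟨hirr.ne_zero, ?_⟩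
    rw [map_sub, map_pow, aeval_X, aeval_C, map_ofNat, ← Complex.ofReal_pow, hr]
    simp
  rw [← h1] at h2
  obtain ⟨φ, hφ⟩ := h2
  change φ y = r at hφ
  obtain ⟨c, hc⟩ := exists_conj (K := ℚ) (φ := φ) (by
    ext q
    simp)
  have hcy : c y = y := by
    rw [isConj_fix hc, hφ, Complex.ofReal_im]
  have hfix : ∀ g : L ≃ₐ[ℚ] L, g y = y := by
    intro g
    have h3 : c (g y) = g y := by
      have h4 := AlgEquiv.congr_fun (hab c g) y
      change c (g y) = g (c y) at h4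
      rw [h4, hcy]
    rw [isConj_fix hc] at h3
    have h4 : φ (g y) = (((φ (g y)).re : ℝ) : ℂ) :=
      Complex.ext rfl (by rw [Complex.ofReal_im, h3])
    have h5 : (φ (g y)) ^ 3 = 2 := by
      rw [← map_pow, ← map_pow, hy, map_ofNat, map_ofNat]
    rw [h4] at h5
    have h6 : (φ (g y)).re ^ 3 = 2 := by exact_mod_cast h5
    have h7 : (φ (g y)).re = r :=
      (Odd.strictMono_pow (by decide : Odd 3)).injective (h6.trans hr.symm)
    apply φ.injective
    rw [h4, h7, hφ]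
  obtain ⟨q, hq⟩ := (IsGalois.mem_range_algebraMap_iff_fixed (F := ℚ) y).mpr hfix
  refine no_rat_cube q ((algebraMap ℚ L).injective ?_)
  rw [map_pow, hq, hy, map_ofNat]

section

variable {A : ArtinInvariant ℤˣ}

/-- extensions without a cube root of `2` -/
lemma val_no_cube (hlin : ∀ (F E : Type) [Field F] [NumberField F] [Field E] [NumberField E]
      [Algebra F E] [IsGalois F E], (∀ x : F, x ^ 3 ≠ 2) → ∀ ψ : (E ≃ₐ[F] E) →* ℂˣ,
      A.val F E (lc ψ) = 1)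
    (F E : Type) [Field F] [NumberField F] [Field E] [NumberField E] [Algebra F E] [IsGalois F E]
    (hE : ∀ y : E, y ^ 3 ≠ 2) {χ : (E ≃ₐ[F] E) → ℂ} (hχ : IsChar χ) : A.val F E χ = 1 := by
  have h := brauer_red (A := A) (K := F) (L := E) ⊥ (fun U ψ => by
    rw [Subgroup.mem_bot]
    refine hlin (IntermediateField.fixedField U) E (fun x hx => hE x ?_) ψ
    have h1 := congrArg (algebraMap (IntermediateField.fixedField U) E) hx
    rw [map_pow, map_ofNat] at h1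
    exact h1) hχ
  exact Subgroup.mem_bot.mp h

/-- totally odd characters -/
lemma val_totally_odd (hR : TrivOne A) (hC : TrivComplex A) (hO : TrivOdd A)
    (F E : Type) [Field F] [NumberField F] [Field E] [NumberField E] [Algebra F E] [IsGalois F E]
    (hF : IsTotallyReal F) {χ : (E ≃ₐ[F] E) → ℂ} (hχ : IsChar χ)
    (hodd : ∀ c ∈ CC F E, χ c = - χ 1) : A.val F E χ = 1 := by
  obtain ⟨E₀, i1, i2, i3, i4, i5, i6, χ₀, hχ₀, h1, h2⟩ := exists_kernel F E hχ
  have h3 : (fun g => χ₀ (AlgEquiv.restrictNormalHom E₀ g)) = χ := funext h1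
  rw [← h3, A.val_infl F E₀ E χ₀ hχ₀]
  refine main_central hR hC hO F E₀ hF (fun c hc g => ?_) χ₀ hχ₀
  obtain ⟨φ, hφ⟩ := hc
  let φ' : E →+* ℂ := ComplexEmbedding.lift E φ
  have h4 : φ'.comp (algebraMap E₀ E) = φ := ComplexEmbedding.lift_comp_algebraMap E φ
  have h5 : φ'.comp (algebraMap F E) = φ.comp (algebraMap F E₀) := by
    rw [← h4]
    ext x
    change φ' (algebraMap F E x) = φ' (algebraMap E₀ E (algebraMap F E₀ x))
    rw [← IsScalarTower.algebraMap_apply F E₀ E]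
  obtain ⟨c', hc'⟩ := exists_conj (K := F) (φ := φ') (by rw [h5]; exact hφ.isReal_comp)
  have h6 : IsConj (φ'.comp (algebraMap E₀ E)) (AlgEquiv.restrictNormalHom E₀ c') := isConj_res hc'
  rw [h4] at h6
  have h7 : AlgEquiv.restrictNormalHom E₀ c' = c := h6.ext hφ
  obtain ⟨g', rfl⟩ := AlgEquiv.restrictNormalHom_surjective (F := F) (K₁ := E₀) E g
  have h8 := h2 c' (isConj_sq hc') (hodd c' ⟨φ', hc'⟩) g'
  rw [map_mul, map_mul, h7] at h8
  exact h8.symm

end

open IntermediateField in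
/-- **The exceptional invariant.** -/
theorem exceptional : ∃ (E : Ext) (ψ : G E →* ℂˣ) (a : E.K) (A : ArtinInvariant ℤˣ),
    a ^ 3 = 2 ∧ IntermediateField.adjoin ℚ {a} = ⊤ ∧ Nat.card (G E) = 4 ∧ IsCyclic (G E) ∧
    Function.Injective ψ ∧ (∀ t : G E, IsCC t → t = 1) ∧ A.val E.K E.L (lin ψ) = -1 ∧
    (∀ (F N : Type) [Field F] [NumberField F] [Field N] [NumberField N] [Algebra F N]
      [IsGalois F N], IsTotallyComplex F → ∀ χ : (N ≃ₐ[F] N) → ℂ, A.val F N χ = 1) ∧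
    (∀ (F N : Type) [Field F] [NumberField F] [Field N] [NumberField N] [Algebra F N]
      [IsGalois F N] (χ : (N ≃ₐ[F] N) → ℂ), IsChar χ → (∀ g, (starRingEnd ℂ) (χ g) = χ g) →
      A.val F N χ = 1) ∧
    (∀ (F N : Type) [Field F] [NumberField F] [Field N] [NumberField N] [Algebra F N]
      [IsGalois F N], (∀ x : F, x ^ 3 ≠ 2) → ∀ θ : (N ≃ₐ[F] N) →* ℂˣ, A.val F N (lc θ) = 1) := by
  have hne : Nonempty (Om →+* ℂ) := inferInstance
  obtain ⟨ι⟩ := hne
  obtain ⟨r, hr⟩ : ∃ r : ℝ, r ^ 3 = 2 := ⟨(2 : ℝ) ^ ((1 : ℝ) / 3), by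
    rw [← Real.rpow_natCast, ← Real.rpow_mul (by norm_num)]
    norm_num⟩
  obtain ⟨a, ha⟩ : (r : ℂ) ∈ ι.range := by
    refine (IsAlgClosed.splits ((Polynomial.X : Polynomial Om) ^ 3 - Polynomial.C 2)).mem_range_of_isRoot
      (Polynomial.X_pow_sub_C_ne_zero (by norm_num) _) ?_
    rw [Polynomial.map_sub, Polynomial.map_pow, Polynomial.map_X, Polynomial.map_C,
      Polynomial.IsRoot.def, Polynomial.eval_sub, Polynomial.eval_pow, Polynomial.eval_X,
      Polynomial.eval_C, map_ofNat, ← Complex.ofReal_pow, hr]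
    simp
  have ha3 : a ^ 3 = 2 := by
    apply ι.injective
    rw [map_pow, ha, map_ofNat, ← Complex.ofReal_pow, hr]
    simp
  have ha0 : a ≠ 0 := by
    rintro rfl
    norm_num at ha3
  have hirr : Irreducible (Polynomial.X ^ 3 - Polynomial.C (2 : ℚ)) :=
    X_pow_sub_C_irreducible_of_prime Nat.prime_three no_rat_cube
  have hmin : (Polynomial.X ^ 3 - Polynomial.C (2 : ℚ)) = minpoly ℚ a := by
    refine minpoly.eq_of_irreducible_of_monic hirr ?_
      (Polynomial.monic_X_pow_sub_C _ (by norm_num))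
    rw [map_sub, map_pow, Polynomial.aeval_X, Polynomial.aeval_C, map_ofNat, ha3, sub_self]
  have hinta : IsIntegral ℚ a := Algebra.IsIntegral.isIntegral a
  obtain ⟨M, hKM, hr', ho, hM⟩ := exists_max ι ℚ⟮a⟯ (by
    intro x hx
    rw [← mem_R0]
    have h1 : ℚ⟮a⟯ ≤ R0 ι := adjoin_simple_le_iff.mpr ((mem_R0 ι).mpr (by
      rw [ha, Complex.ofReal_im]))
    exact h1 hx) (by
    intro x hx
    have hfin : FiniteDimensional ℚ ℚ⟮a⟯ := adjoin.finiteDimensional hinta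
    have h1 : (minpoly ℚ (⟨x, hx⟩ : ℚ⟮a⟯)).natDegree ∣ Module.finrank ℚ ℚ⟮a⟯ :=
      minpoly.degree_dvd (Algebra.IsIntegral.isIntegral _)
    have h2 : minpoly ℚ (⟨x, hx⟩ : ℚ⟮a⟯) = minpoly ℚ x :=
      (minpoly.algebraMap_eq (B' := Om) (algebraMap ℚ⟮a⟯ Om).injective _).symm
    rw [h2, adjoin.finrank hinta, ← hmin, Polynomial.natDegree_X_pow_sub_C] at h1
    exact Odd.of_dvd_nat (by decide) h1)
  have haM : a ∈ M := hKM (mem_adjoin_simple_self ℚ a)
  obtain ⟨s, hs⟩ := IsAlgClosed.exists_pow_nat_eq (1 + a ^ 2) (n := 2) (by norm_num)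
  have hsM : s ∉ M := s_not ho ι hr' haM ha3 hs
  have hs0 : s ≠ 0 := s_ne hs hsM
  obtain ⟨L, hK, hLn, hgal, sL, hsL, hcard, hcyc, hconj, ψ, hψ, hψ2⟩ :=
    exists_quart ha0 hs (fun h => hsM (hKM h))
  let ν := nu s (s_cases haM hs) hs0
  have hν : ∀ v, (ν v = 1 ∧ v s = s) ∨ (ν v = -1 ∧ v s = -s) := nu_spec (s_cases haM hs) hs0
  have hν1 : ν ≠ 1 := nu_ne (s_cases haM hs) hs0 hsM
  have hνν : ∀ v, ν v * ν v = 1 := by
    intro v
    rcases hν v with ⟨h, -⟩ | ⟨h, -⟩ <;> rw [h] <;> simp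
  let K := ℚ⟮a⟯
  let b : K := ⟨a, mem_adjoin_simple_self ℚ a⟩
  have hτ : ∀ τ : K →+* M, ((τ b : M) : Om) = a := by
    intro τ
    refine cube_unique ι hr' (τ b).2 haM ?_
    have h1 : b ^ 3 = 2 := Subtype.ext ha3
    have h2 := congrArg (fun z => ((τ z : M) : Om)) h1
    simp only [map_pow, map_ofNat] at h2
    rw [ha3]
    exact h2
  let τ₀ : K →+* M := (IntermediateField.inclusion hKM).toRingHom
  have hτ₀ : ∀ τ : K →+* M, τ = τ₀ := by
    intro τ
    have h1 : τ.toRatAlgHom = τ₀.toRatAlgHom := by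
      refine (adjoin.powerBasis hinta).algHom_ext ?_
      rw [adjoin.powerBasis_gen]
      exact Subtype.ext ((hτ τ).trans (hτ τ₀).symm)
    ext z
    exact congrArg Subtype.val (AlgHom.congr_fun h1 z)
  refine ⟨⟨K, L⟩, ψ, b, inva M ν hM, Subtype.ext ha3, ?_, hcard, hcyc, hψ, ?_, ?_, ?_, ?_, ?_⟩
  · rw [eq_top_iff]
    rintro x -
    have h1 : x ∈ Algebra.adjoin ℚ {b} := by
      have h2 := (adjoin.powerBasis hinta).adjoin_gen_eq_top
      rw [adjoin.powerBasis_gen] at h2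
      have h3 : AdjoinSimple.gen ℚ a = b := rfl
      rw [h3] at h2
      exact mem_adjoin_any _ _ b x (Algebra.eq_top_iff.mp h2 x)
    exact algebra_adjoin_le_adjoin ℚ {b} h1
  · rintro t ⟨φ, hφ⟩
    refine hconj φ t ?_
    ext x
    exact (hφ x).symm
  · exact vl_exc ι hr' ν haM ha3 hs hν K L τ₀ hτ₀ (hτ τ₀) (t := sL) (Subtype.ext (by
      change (sL : Om) ^ 2 = 1 + a ^ 2
      rw [hsL, hs])) ψ hψ2 hs0
  · intro F N _ _ _ _ _ _ hF χ
    exact vl_complex ι hr' ν F N hF χ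
  · intro F N _ _ _ _ _ _ χ hχ h
    exact vl_real ν hνν hν1 F N hχ h
  · intro F N _ _ _ _ _ _ hF θ
    exact vl_lin ι hr' ν ho haM ha3 hs hν F N hF θ

end Pool.Agent.W2helper1.SI
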